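import Pool.Agent.Helper83.EINU.CountP
import Pool.Agent.Helper83.EIN.Main

/-!
# Project EIN2 (MP_06d934_gt): two small and two large blocks, definitions

Relative sizes of the blocks `0, 1, 2, 3`: `t a`, `t b`, `(1 - t) β`, `(1 - t) γ`, where `b = 1 - a`,
`γ = 1 - β`. Unknowns `v = (u, w, y₀, z₀, y₁, z₁)`, `u = x₀₁`, `w = x₂₃`, `y_i = x_{i2}`,
`z_i = x_{i3}`.
-/

set_option autoImplicit false

namespace Pool.Agent.Helper83.EIN2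

open Finset Topology Filter Pool.Agent.Helper83.EIN

/-- The Einstein equations (constant `1/2`). `cs p q r` is the cosine of the angle between the sides
`p` and `q` of the triangle with sides `p`, `q`, `r`. -/
structure Sol2 (a β t : ℝ) (v : Fin 6 → ℝ) : Prop where
  pos : ∀ i, 0 < v i
  e0 : v 0 = 1 - (1 - t) * β * cs (v 2) (v 4) (v 0) - (1 - t) * (1 - β) * cs (v 3) (v 5) (v 0)
  e1 : v 1 = 1 - t * a * cs (v 2) (v 3) (v 1) - t * (1 - a) * cs (v 4) (v 5) (v 1)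
  e2 : v 2 = 1 - t * (1 - a) * cs (v 0) (v 4) (v 2) - (1 - t) * (1 - β) * cs (v 1) (v 3) (v 2)
  e3 : v 3 = 1 - t * (1 - a) * cs (v 0) (v 5) (v 3) - (1 - t) * β * cs (v 1) (v 2) (v 3)
  e4 : v 4 = 1 - t * a * cs (v 0) (v 2) (v 4) - (1 - t) * (1 - β) * cs (v 1) (v 5) (v 4)
  e5 : v 5 = 1 - t * a * cs (v 0) (v 3) (v 5) - (1 - t) * β * cs (v 1) (v 4) (v 5)

/-- The a priori bounds. The triangles are `012`, `013`, `023`, `123`. -/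
structure Bd2 (β t : ℝ) (v : Fin 6 → ℝ) : Prop where
  t2 : Tri (v 0) (v 2) (v 4)
  t3 : Tri (v 0) (v 3) (v 5)
  s0 : Tri (v 1) (v 2) (v 3)
  s1 : Tri (v 1) (v 4) (v 5)
  l0 : t ≤ v 0
  u0 : v 0 ≤ 2
  l1 : 1 - t ≤ v 1
  u1 : v 1 ≤ 1 + t
  l2 : (1 - t) * β ≤ v 2
  l3 : (1 - t) * (1 - β) ≤ v 3
  l4 : (1 - t) * β ≤ v 4
  l5 : (1 - t) * (1 - β) ≤ v 5
  u2 : v 2 ≤ 2
  u3 : v 3 ≤ 2
  u4 : v 4 ≤ 2
  u5 : v 5 ≤ 2

/-- The parameters `(a, β, t)`, near `(a₀, β₀, 0)`, `t > 0`. -/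
structure Near2 (a₀ β₀ ε a β t : ℝ) : Prop where
  ha : |a - a₀| < ε
  hb : |β - β₀| < ε
  t0 : 0 < t
  t1 : t < ε

theorem Near2.mono {a₀ β₀ ε ε' a β t : ℝ} (h : Near2 a₀ β₀ ε a β t) (hε : ε ≤ ε') :
    Near2 a₀ β₀ ε' a β t :=
  ⟨h.ha.trans_le hε, h.hb.trans_le hε, h.t0, h.t1.trans_le hε⟩

/-- The counting lemma with the parameters `(a, β, t)`. -/
theorem count_set2 {E : Type*} [NormedAddCommGroup E] [NormedSpace ℝ E] [FiniteDimensional ℝ E]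
    (F : ℝ → ℝ → ℝ → E → E)
    (hF : ContDiff ℝ 1 (fun z : (ℝ × ℝ × ℝ) × E ↦ F z.1.1 z.1.2.1 z.1.2.2 z.2))
    (a₀ β₀ : ℝ) (K : Set E)
    (hK : IsCompact K) (Z : Finset E) (hKZ : ∀ u ∈ K, F a₀ β₀ 0 u = 0 → u ∈ Z)
    (hZ : ∀ z ∈ Z, F a₀ β₀ 0 z = 0)
    (hD : ∀ z ∈ Z, ∀ v : E, HasDerivAt (fun s : ℝ ↦ F a₀ β₀ 0 (z + s • v)) 0 0 → v = 0)
    (U : Set E) (hU : ∀ z ∈ Z, U ∈ 𝓝 z) (S : ℝ → ℝ → ℝ → Set E) (ε₀ : ℝ) (hε₀ : 0 < ε₀)
    (hS : ∀ a β t, Near2 a₀ β₀ ε₀ a β t → ∀ u ∈ S a β t, u ∈ K ∧ F a β t u = 0)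
    (hS' : ∀ a β t, Near2 a₀ β₀ ε₀ a β t → ∀ u ∈ U, F a β t u = 0 → u ∈ S a β t) :
    ∃ ε > 0, ∀ a β t, Near2 a₀ β₀ ε a β t → (S a β t).ncard = Z.card := by
  have h := Pool.Agent.Helper83.EINU.count (fun τ : ℝ × ℝ × ℝ ↦ F τ.1 τ.2.1 τ.2.2) hF (a₀, β₀, 0) K
    hK Z hKZ hZ hD U hU
  obtain ⟨ε, hε, h⟩ := Metric.eventually_nhds_iff.1 h
  refine ⟨min ε ε₀, lt_min hε hε₀, fun a β t hN ↦ ?_⟩
  have hN' := hN.mono (min_le_right ε ε₀)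
  have hN'' := hN.mono (min_le_left ε ε₀)
  obtain ⟨Zt, h1, h2, h3⟩ := h (y := (a, β, t)) (by
    rw [Prod.dist_eq, Prod.dist_eq]
    simp only [Real.dist_eq, sub_zero]
    refine max_lt hN''.ha (max_lt hN''.hb ?_)
    rw [abs_of_pos hN''.t0]
    exact hN''.t1)
  have : S a β t = Zt := by
    ext u
    constructor
    · intro hu
      obtain ⟨p, q⟩ := hS a β t hN' u hu
      exact h3 u p q
    · intro hu
      obtain ⟨p, q⟩ := h2 u hu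
      exact hS' a β t hN' u p q
  rw [this, Set.ncard_coe_finset, h1]

/-! ### The limit points -/

/-- The limit of `u` if both blocks are at `L` and far from each other. -/
noncomputable def uL (β : ℝ) : ℝ := 1 / (1 / (2 * β) + (1 - β) / (2 * (1 + β) ^ 2))

/-- The limit points for `t → 0`. Position `L`: `(y, z) = (β, 1 + β)`, position `M`: `(β, 1 - β)`,
position `R`: `(2 - β, 1 - β)`. In this order: `LL` near, `LL` far, `RR` near, `RR` far, `MM` near,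
`MM` far, `ML`, `LM`, `MR`, `RM`, `LR`, `RL`. -/
noncomputable def Lim (β : ℝ) : List (Fin 6 → ℝ) :=
  [![0, 1, β, 1 + β, β, 1 + β], ![uL β, 1, β, 1 + β, β, 1 + β],
   ![0, 1, 2 - β, 1 - β, 2 - β, 1 - β], ![uL (1 - β), 1, 2 - β, 1 - β, 2 - β, 1 - β],
   ![0, 1, β, 1 - β, β, 1 - β], ![2 * β * (1 - β), 1, β, 1 - β, β, 1 - β],
   ![2 * β, 1, β, 1 - β, β, 1 + β], ![2 * β, 1, β, 1 + β, β, 1 - β],
   ![2 * (1 - β), 1, β, 1 - β, 2 - β, 1 - β], ![2 * (1 - β), 1, 2 - β, 1 - β, β, 1 - β],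
   ![2, 1, β, 1 + β, 2 - β, 1 - β], ![2, 1, 2 - β, 1 - β, β, 1 + β]]

/-! ### The chart `ML`: the block `0` at `M`, the block `1` at `L`

`p = (κ₂, κ₃, κ₀, ω, λ₂, λ₃, τ₂, α, α', b₁, b', τ₃)`. The cosines are
triangle `023`: `1 - tκ₂` at `2`, `1 - tκ₃` at `3`, `-1 + tκ₀` at `0`;
triangle `123`: `1 - tω` at `1`, `-1 + tλ₂` at `2`, `1 - tλ₃` at `3`;
triangle `012`: `-1 + tτ₂` at `2`, `1 - tα` at `1`, `1 - tα'` at `0`;
triangle `013`: `1 - tb₁` at `1`, `-1 + tb'` at `0`, `1 - tτ₃` at `3`. -/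

/-- The lengths `(u, w, y₀, z₀, y₁, z₁)` given by the Einstein equations. -/
noncomputable def lenML (a β t : ℝ) (p : Fin 12 → ℝ) : Fin 6 → ℝ :=
  ![1 + (1 - t) * β * (1 - t * p 6) - (1 - t) * (1 - β) * (1 - t * p 11),
    1 + t * a * (1 - t * p 2) - t * (1 - a) * (1 - t * p 3),
    1 - t * (1 - a) * (1 - t * p 7) - (1 - t) * (1 - β) * (1 - t * p 1),
    1 - t * (1 - a) * (1 - t * p 9) - (1 - t) * β * (1 - t * p 0),
    1 - t * a * (1 - t * p 8) - (1 - t) * (1 - β) * (1 - t * p 5),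
    1 + t * a * (1 - t * p 10) + (1 - t) * β * (1 - t * p 4)]

/-- The parameters of a solution. -/
noncomputable def parML (t : ℝ) (v : Fin 6 → ℝ) : Fin 12 → ℝ :=
  ![(1 - cs (v 1) (v 2) (v 3)) / t, (1 - cs (v 1) (v 3) (v 2)) / t, (1 + cs (v 2) (v 3) (v 1)) / t,
    (1 - cs (v 4) (v 5) (v 1)) / t, (1 + cs (v 1) (v 4) (v 5)) / t, (1 - cs (v 1) (v 5) (v 4)) / t,
    (1 + cs (v 2) (v 4) (v 0)) / t, (1 - cs (v 0) (v 4) (v 2)) / t, (1 - cs (v 0) (v 2) (v 4)) / t,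
    (1 - cs (v 0) (v 5) (v 3)) / t, (1 + cs (v 0) (v 3) (v 5)) / t, (1 - cs (v 3) (v 5) (v 0)) / t]

/-- The equations of the chart `ML`. -/
noncomputable def FML (a β t : ℝ) (p : Fin 12 → ℝ) : Fin 12 → ℝ :=
  let u := lenML a β t p 0
  let w := lenML a β t p 1
  let y₀ := lenML a β t p 2
  let z₀ := lenML a β t p 3
  let y₁ := lenML a β t p 4
  let z₁ := lenML a β t p 5
  let b := 1 - a
  let g := 1 - β
  let e := (1 - t) * (g * p 1 + β * p 0) + t * (b * p 7 + b * p 9 + a * p 2 - b * p 3)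
  let f₁ := (1 - t) * (g * p 5 + β * p 4) + t * (a * p 8 + a * p 10 - a * p 2 + b * p 3)
  let f₂ := (1 - t) * (g * p 1 + g * p 5 + β * p 6 - g * p 11) + t * (b * p 7 + a * p 8)
  let f₃ := (1 - t) * (-(β * p 6) + g * p 11 + β * p 0 + β * p 4) + t * (b * p 9 + a * p 10)
  ![e - (z₀ * p 2 - w * p 0), e - (y₀ * p 2 - w * p 1),
    a * (p 0 + p 1) + (1 - t) * p 0 * p 1 + t * b * (p 7 * p 0 + p 9 * p 1) -
      (b * p 7 + b * p 9 + a * p 2 - b * p 3),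
    f₁ - (y₁ * p 3 + w * p 5), f₁ - (y₁ * p 4 - z₁ * p 5), f₁ - (w * p 4 - z₁ * p 3),
    f₂ - (y₀ * p 8 + y₁ * p 7), f₂ - (y₁ * p 6 - u * p 8), f₂ - (y₀ * p 6 - u * p 7),
    f₃ - (u * p 9 + z₀ * p 11), f₃ - (z₀ * p 10 - z₁ * p 9), f₃ - (u * p 10 - z₁ * p 11)]

/-- The excess of the second zero of the chart `ML`. -/
noncomputable def eML (a β : ℝ) : ℝ :=
  2 * a + (1 - a) * (1 - β) * (1 + 2 * β) / (2 * β * (1 + 3 * β))

/-- The zeros of the chart `ML` at `t = 0`: `e = 0` and `e = eML a β`. -/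
noncomputable def zML (β e : ℝ) : Fin 12 → ℝ :=
  let g := 1 - β
  let α := e * g / (2 * (1 + 3 * β))
  let b₁ := e * g / (2 * β) - 2 * α
  ![e * g / β, e * β / g, e / (β * g), 0, 0, 0, 4 * α, α, α, b₁,
    (e - 2 * β * α + (1 + β) * b₁) / g, e * β / g + 2 * β * α / g]

/-! ### The near pairs: the triangles `012` and `013`

`A`, `A'` are the cosines of the triangle `012` at `1`, `0`; `B`, `B'` those of the triangle `013`;
`1 - t²τ₂`, `1 - t²τ₃` the cosines at `2`, `3`; `A + A' = tσ₂`, `B + B' = tσ₃`; `u = tξ`. -/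

/-! ### The chart `MM`: both blocks at `M`

`p = (A, μ, κ₂₀, κ₃₀, κ₀₀, λ₂, λ₃, λ₀, τ₂, τ₃, σ₂, σ₃)`, `A + B = tμ`. Triangle `i23`: cosines
`1 - tκ₂ᵢ` at `2`, `1 - tκ₃ᵢ` at `3`, `-1 + tκ₀ᵢ` at `i`; `κ₂₁ = κ₂₀ + tλ₂`, `κ₃₁ = κ₃₀ + tλ₃`,
`κ₀₁ = κ₀₀ + tλ₀`. -/

/-- The lengths. -/
noncomputable def lenMM (a β t : ℝ) (p : Fin 12 → ℝ) : Fin 6 → ℝ :=
  let A := p 0
  let B := -A + t * p 1
  ![t * (1 + (1 - t) * t * (β * p 8 + (1 - β) * p 9)),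
    1 + t - t ^ 2 * (a * p 4 + (1 - a) * (p 4 + t * p 7)),
    1 - t * (1 - a) * A - (1 - t) * (1 - β) * (1 - t * p 3),
    1 - t * (1 - a) * B - (1 - t) * β * (1 - t * p 2),
    1 - t * a * (-A + t * p 10) - (1 - t) * (1 - β) * (1 - t * (p 3 + t * p 6)),
    1 - t * a * (-B + t * p 11) - (1 - t) * β * (1 - t * (p 2 + t * p 5))]

/-- The parameters of a solution. -/
noncomputable def parMM (t : ℝ) (v : Fin 6 → ℝ) : Fin 12 → ℝ :=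
  ![cs (v 0) (v 4) (v 2), (cs (v 0) (v 4) (v 2) + cs (v 0) (v 5) (v 3)) / t,
    (1 - cs (v 1) (v 2) (v 3)) / t, (1 - cs (v 1) (v 3) (v 2)) / t, (1 + cs (v 2) (v 3) (v 1)) / t,
    (cs (v 1) (v 2) (v 3) - cs (v 1) (v 4) (v 5)) / t ^ 2,
    (cs (v 1) (v 3) (v 2) - cs (v 1) (v 5) (v 4)) / t ^ 2,
    (cs (v 4) (v 5) (v 1) - cs (v 2) (v 3) (v 1)) / t ^ 2,
    (1 - cs (v 2) (v 4) (v 0)) / t ^ 2, (1 - cs (v 3) (v 5) (v 0)) / t ^ 2,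
    (cs (v 0) (v 4) (v 2) + cs (v 0) (v 2) (v 4)) / t,
    (cs (v 0) (v 5) (v 3) + cs (v 0) (v 3) (v 5)) / t]

/-- The equations of the chart `MM`. -/
noncomputable def FMM (a β t : ℝ) (p : Fin 12 → ℝ) : Fin 12 → ℝ :=
  let w := lenMM a β t p 1
  let y₀ := lenMM a β t p 2
  let z₀ := lenMM a β t p 3
  let y₁ := lenMM a β t p 4
  let z₁ := lenMM a β t p 5
  let b := 1 - a
  let g := 1 - β
  let A := p 0
  let B := -A + t * p 1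
  let A' := -A + t * p 10
  let B' := -B + t * p 11
  let μ := p 1
  let μ' := p 10 + p 11 - μ
  let k2 := p 2 + t * p 5
  let k3 := p 3 + t * p 6
  let k0 := p 4 + t * p 7
  let T := β * p 8 + g * p 9
  let ξ := 1 + (1 - t) * t * T
  let e₀ := (1 - t) * (g * p 3 + β * p 2) + t * (a * p 4 + b * k0 - b * μ)
  let X := (1 - t) * (g * p 6 + β * p 5) + b * μ - a * μ'
  ![e₀ - (z₀ * p 4 - w * p 2), e₀ - (y₀ * p 4 - w * p 3),
    (1 - b * A) * p 2 + (1 - b * B) * p 3 + (1 - t) * p 2 * p 3 - (a * p 4 + b * k0 - b * μ),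
    (1 - a * A') * k2 + (1 - a * B') * k3 + (1 - t) * k2 * k3 - (a * p 4 + b * k0 - a * μ'),
    X - ((ξ * B - t * z₀ * p 9) * k0 + z₀ * p 7 - w * p 5),
    X - ((ξ * A - t * y₀ * p 8) * k0 + y₀ * p 7 - w * p 6),
    -(a * p 10) + (1 - t) * g * p 6 - ((1 - t) * T * A - y₀ * p 8),
    -(a * p 11) + (1 - t) * β * p 5 - ((1 - t) * T * B - z₀ * p 9),
    ξ ^ 2 * (1 - A ^ 2) - y₀ * p 8 * (y₀ + y₁ - t * ξ * A),
    ξ ^ 2 * (1 - B ^ 2) - z₀ * p 9 * (z₀ + z₁ - t * ξ * B),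
    ξ * p 10 - p 8 * (y₀ + y₁), ξ * p 11 - p 9 * (z₀ + z₁)]

/-- The zeros of the chart `MM` at `t = 0` are given by
`(s, e) = (1, 0), (-1, 0), (k, 2a), (-k, 2(1 - a))`, `k = 1 - 2β`. -/
noncomputable def zMM (a β s e : ℝ) : Fin 12 → ℝ :=
  let b := 1 - a
  let g := 1 - β
  let G := 1 - s ^ 2
  let h := G / (2 * β * g)
  let d := b - a
  let k := (g - β) / (β * g)
  let l2 := (-(h * s) - d * G / (2 * g)) / β
  ![s, 2 * a * h + s * e * k, e * g / β, e * β / g, e / (β * g),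
    l2, (h * s - d * G / (2 * β)) / g,
    (-(d * h) + s * e * k + s * (e / (β * g)) + l2) / g,
    G / (2 * β ^ 2), G / (2 * g ^ 2), G / β, G / g]

/-! ### The chart `LL`: both blocks at `L`, near each other

`p = (A, μ, ω₀, λ₂₀, λ₃₀, ω₁, λ₂₁, λ₃₁, τ₂, τ₃, σ₂, σ₃)`, `A - B = tμ`. Triangle `i23`: cosines
`1 - t²ωᵢ` at `i`, `-1 + t²λ₂ᵢ` at `2`, `1 - t²λ₃ᵢ` at `3`. -/

/-- The lengths. -/
noncomputable def lenLL (a β t : ℝ) (p : Fin 12 → ℝ) : Fin 6 → ℝ :=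
  let A := p 0
  let B := A - t * p 1
  ![t * (1 + (1 - t) * t * (β * p 8 + (1 - β) * p 9)),
    1 - t + t ^ 3 * (a * p 2 + (1 - a) * p 5),
    1 - t * (1 - a) * A - (1 - t) * (1 - β) * (1 - t ^ 2 * p 4),
    1 - t * (1 - a) * B + (1 - t) * β * (1 - t ^ 2 * p 3),
    1 - t * a * (-A + t * p 10) - (1 - t) * (1 - β) * (1 - t ^ 2 * p 7),
    1 - t * a * (-B + t * p 11) + (1 - t) * β * (1 - t ^ 2 * p 6)]

/-- The parameters of a solution. -/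
noncomputable def parLL (t : ℝ) (v : Fin 6 → ℝ) : Fin 12 → ℝ :=
  ![cs (v 0) (v 4) (v 2), (cs (v 0) (v 4) (v 2) - cs (v 0) (v 5) (v 3)) / t,
    (1 - cs (v 2) (v 3) (v 1)) / t ^ 2, (1 + cs (v 1) (v 2) (v 3)) / t ^ 2,
    (1 - cs (v 1) (v 3) (v 2)) / t ^ 2,
    (1 - cs (v 4) (v 5) (v 1)) / t ^ 2, (1 + cs (v 1) (v 4) (v 5)) / t ^ 2,
    (1 - cs (v 1) (v 5) (v 4)) / t ^ 2,
    (1 - cs (v 2) (v 4) (v 0)) / t ^ 2, (1 - cs (v 3) (v 5) (v 0)) / t ^ 2,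
    (cs (v 0) (v 4) (v 2) + cs (v 0) (v 2) (v 4)) / t,
    (cs (v 0) (v 5) (v 3) + cs (v 0) (v 3) (v 5)) / t]

/-- The equations of the chart `LL`. -/
noncomputable def FLL (a β t : ℝ) (p : Fin 12 → ℝ) : Fin 12 → ℝ :=
  let w := lenLL a β t p 1
  let y₀ := lenLL a β t p 2
  let z₀ := lenLL a β t p 3
  let y₁ := lenLL a β t p 4
  let z₁ := lenLL a β t p 5
  let b := 1 - a
  let g := 1 - β
  let A := p 0
  let B := A - t * p 1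
  let μ := p 1
  let μ' := p 10 - p 11 - μ
  let T := β * p 8 + g * p 9
  let ξ := 1 + (1 - t) * t * T
  let q₀ := -(b * μ) + (1 - t) * (g * p 4 + β * p 3) + t * (a * p 2 + b * p 5)
  let q₁ := -(a * μ') + (1 - t) * (g * p 7 + β * p 6) + t * (a * p 2 + b * p 5)
  ![q₀ - (y₀ * p 2 + w * p 4), q₀ - (y₀ * p 3 - z₀ * p 4), q₀ - (w * p 3 - z₀ * p 2),
    q₁ - (y₁ * p 5 + w * p 7), q₁ - (y₁ * p 6 - z₁ * p 7), q₁ - (w * p 6 - z₁ * p 5),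
    -(a * p 10) + (1 - t) * g * (p 7 - p 4) - ((1 - t) * T * A - y₀ * p 8),
    -(a * p 11) - (1 - t) * β * (p 6 - p 3) - ((1 - t) * T * B - z₀ * p 9),
    ξ ^ 2 * (1 - A ^ 2) - y₀ * p 8 * (y₀ + y₁ - t * ξ * A),
    ξ ^ 2 * (1 - B ^ 2) - z₀ * p 9 * (z₀ + z₁ - t * ξ * B),
    ξ * p 10 - p 8 * (y₀ + y₁), ξ * p 11 - p 9 * (z₀ + z₁)]

/-- The third value of `s` in the chart `LL`. -/
noncomputable def sLL (a β : ℝ) : ℝ :=
  (1 - 2 * a) * (1 + β) * ((1 + β) ^ 3 + (1 - β) * β ^ 2) / ((1 + β) ^ 2 + β * (1 - β)) ^ 2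

/-- The zeros of the chart `LL` at `t = 0`: `s = 1`, `s = -1`, `s = sLL a β`. -/
noncomputable def zLL (a β s : ℝ) : Fin 12 → ℝ :=
  let b := 1 - a
  let g := 1 - β
  let G := 1 - s ^ 2
  let h := G / (2 * β * (1 + β))
  let K := ((1 + β) ^ 2 + β * g) / (2 * β * (1 + β) ^ 2)
  let X := 2 / g * (G * (K * s - (b - a) / (2 * β)))
  let μ := 2 * a * h - X
  let μ' := 2 * h - μ
  ![s, μ, b * μ / (2 * β ^ 2), (1 + β) ^ 2 * (b * μ / (2 * β ^ 2)), b * μ / 2,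
    a * μ' / (2 * β ^ 2), (1 + β) ^ 2 * (a * μ' / (2 * β ^ 2)), a * μ' / 2,
    G / (2 * β ^ 2), G / (2 * (1 + β) ^ 2), G / β, G / (1 + β)]

/-! ### The equations without denominators (for the limit points with `u > 0`, simple positions) -/

/-- The Einstein equations without denominators. -/
noncomputable def FR (a β t : ℝ) (v : Fin 6 → ℝ) : Fin 6 → ℝ :=
  ![2 * v 2 * v 4 * v 3 * v 5 * (v 0 - 1) + (1 - t) * β * (v 2 ^ 2 + v 4 ^ 2 - v 0 ^ 2) * v 3 * v 5 +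
      (1 - t) * (1 - β) * (v 3 ^ 2 + v 5 ^ 2 - v 0 ^ 2) * v 2 * v 4,
    2 * v 2 * v 3 * v 4 * v 5 * (v 1 - 1) + t * a * (v 2 ^ 2 + v 3 ^ 2 - v 1 ^ 2) * v 4 * v 5 +
      t * (1 - a) * (v 4 ^ 2 + v 5 ^ 2 - v 1 ^ 2) * v 2 * v 3,
    2 * v 0 * v 4 * v 1 * v 3 * (v 2 - 1) + t * (1 - a) * (v 0 ^ 2 + v 4 ^ 2 - v 2 ^ 2) * v 1 * v 3 +
      (1 - t) * (1 - β) * (v 1 ^ 2 + v 3 ^ 2 - v 2 ^ 2) * v 0 * v 4,
    2 * v 0 * v 5 * v 1 * v 2 * (v 3 - 1) + t * (1 - a) * (v 0 ^ 2 + v 5 ^ 2 - v 3 ^ 2) * v 1 * v 2 +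
      (1 - t) * β * (v 1 ^ 2 + v 2 ^ 2 - v 3 ^ 2) * v 0 * v 5,
    2 * v 0 * v 2 * v 1 * v 5 * (v 4 - 1) + t * a * (v 0 ^ 2 + v 2 ^ 2 - v 4 ^ 2) * v 1 * v 5 +
      (1 - t) * (1 - β) * (v 1 ^ 2 + v 5 ^ 2 - v 4 ^ 2) * v 0 * v 2,
    2 * v 0 * v 3 * v 1 * v 4 * (v 5 - 1) + t * a * (v 0 ^ 2 + v 3 ^ 2 - v 5 ^ 2) * v 1 * v 4 +
      (1 - t) * β * (v 1 ^ 2 + v 4 ^ 2 - v 5 ^ 2) * v 0 * v 3]

/-! ### Exact identities -/

theorem cs_comm (x y z : ℝ) : cs x y z = cs y x z := by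
  unfold cs
  congr 1 <;> ring

/-- The projection of two sides on the third one. -/
theorem proj {x y z : ℝ} (hx : 0 < x) (hy : 0 < y) (hz : 0 < z) :
    z = x * cs x z y + y * cs y z x := by
  unfold cs
  field_simp
  ring

/-- Cosines from the projection identities. -/
theorem cs_of_proj {x y z p q r : ℝ} (hx : 0 < x) (hy : 0 < y) (h1 : x = y * r + z * q)
    (h2 : y = x * r + z * p) (h3 : z = x * q + y * p) : cs x y z = r := by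
  unfold cs
  rw [div_eq_iff (by positivity)]
  linear_combination x * h1 + y * h2 - z * h3

theorem one_add_cs {x y : ℝ} (hx : 0 < x) (hy : 0 < y) (z : ℝ) :
    1 + cs x y z = (x + y - z) * (x + y + z) / (2 * x * y) := by
  unfold cs
  field_simp
  ring

theorem one_sub_cs {x y : ℝ} (hx : 0 < x) (hy : 0 < y) (z : ℝ) :
    1 - cs x y z = (z - x + y) * (z + x - y) / (2 * x * y) := by
  unfold cs
  field_simp
  ring

/-- The exact identity of the block `0`. -/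
theorem star0 {a β t : ℝ} {v : Fin 6 → ℝ} (h : Sol2 a β t v) :
    (1 - cs (v 1) (v 2) (v 3)) * (1 - cs (v 1) (v 3) (v 2)) =
      t * (a * cs (v 2) (v 3) (v 1) + (1 - a) * cs (v 4) (v 5) (v 1) +
        cs (v 1) (v 2) (v 3) * cs (v 1) (v 3) (v 2) -
        (1 - a) * (cs (v 0) (v 4) (v 2) * cs (v 1) (v 2) (v 3) +
          cs (v 0) (v 5) (v 3) * cs (v 1) (v 3) (v 2))) := by
  have hp := proj (h.pos 2) (h.pos 3) (h.pos 1)
  rw [cs_comm (v 2) (v 1), cs_comm (v 3) (v 1)] at hp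
  linear_combination hp - h.e1 + cs (v 1) (v 2) (v 3) * h.e2 + cs (v 1) (v 3) (v 2) * h.e3

/-- The exact identity of the block `1`. -/
theorem star1 {a β t : ℝ} {v : Fin 6 → ℝ} (h : Sol2 a β t v) :
    (1 - cs (v 1) (v 4) (v 5)) * (1 - cs (v 1) (v 5) (v 4)) =
      t * (a * cs (v 2) (v 3) (v 1) + (1 - a) * cs (v 4) (v 5) (v 1) +
        cs (v 1) (v 4) (v 5) * cs (v 1) (v 5) (v 4) -
        a * (cs (v 0) (v 2) (v 4) * cs (v 1) (v 4) (v 5) +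
          cs (v 0) (v 3) (v 5) * cs (v 1) (v 5) (v 4))) := by
  have hp := proj (h.pos 4) (h.pos 5) (h.pos 1)
  rw [cs_comm (v 4) (v 1), cs_comm (v 5) (v 1)] at hp
  linear_combination hp - h.e1 + cs (v 1) (v 4) (v 5) * h.e4 + cs (v 1) (v 5) (v 4) * h.e5

end Pool.Agent.Helper83.EIN2
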