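import Pool.Agent.Helper83.EIN2.TOT
import Pool.Agent.Helper83.EINU.Main

/-!
# Project EIN2 (MP_06d934_gt): the count for the block sizes
-/

set_option autoImplicit false

namespace Pool.Agent.Helper83.EIN2

open Finset Topology Filter Pool.Agent.Helper83.EIN

/-- 22 solutions, uniformly. -/
theorem uniform (hT : TOT) {δ : ℝ} (hδ : 0 < δ) :
    ∃ ε > 0, ∀ a β t : ℝ, δ ≤ a → a ≤ 1 - δ → δ ≤ β → β ≤ 1 - δ →
      (δ ≤ |a - 1 / 2| ∨ δ ≤ |β - 1 / 2|) → 0 < t → t < ε →
        {v : Fin 6 → ℝ | Sol2 a β t v}.ncard = 22 := by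
  have hK : IsCompact (Set.Icc ((δ, δ) : ℝ × ℝ) (1 - δ, 1 - δ) ∩
      ({p | δ ≤ |p.1 - 1 / 2|} ∪ {p | δ ≤ |p.2 - 1 / 2|})) := by
    refine isCompact_Icc.inter_right ((isClosed_le continuous_const ?_).union
      (isClosed_le continuous_const ?_)) <;> fun_prop
  have hev := hK.eventually_forall_of_forall_eventually (x₀ := (0 : ℝ))
    (P := fun t p ↦ 0 < t → {v : Fin 6 → ℝ | Sol2 p.1 p.2 t v}.ncard = 22) (by
    rintro ⟨a, β⟩ ⟨⟨⟨h1, h2⟩, ⟨h3, h4⟩⟩, h5⟩
    simp only at h1 h2 h3 h4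
    have h5' : δ ≤ |a - 1 / 2| ∨ δ ≤ |β - 1 / 2| := h5
    obtain ⟨ε, hε, H⟩ := hT a β (by linarith) (by linarith) (by linarith) (by linarith) (by
      rcases h5' with h | h
      · left
        rintro rfl
        rw [sub_self, abs_zero] at h
        linarith
      · right
        rintro rfl
        rw [sub_self, abs_zero] at h
        linarith)
    rw [Metric.eventually_nhds_iff]
    refine ⟨ε, hε, ?_⟩
    rintro ⟨t, a', β'⟩ hd ht
    rw [Prod.dist_eq, Prod.dist_eq, max_lt_iff, max_lt_iff] at hd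
    simp only [Real.dist_eq, sub_zero] at hd ht
    obtain ⟨d1, d2, d3⟩ := hd
    refine H a' β' t ⟨d2, d3, ht, ?_⟩
    rwa [abs_of_pos ht] at d1)
  obtain ⟨ε, hε, H⟩ := Metric.eventually_nhds_iff.1 hev
  refine ⟨ε, hε, fun a β t h1 h2 h3 h4 h5 ht htε ↦ ?_⟩
  exact H (y := t) (by rw [Real.dist_eq, sub_zero, abs_of_pos ht]; exact htε) (a, β)
    ⟨⟨⟨h1, h3⟩, ⟨h2, h4⟩⟩, h5⟩ ht

theorem fin (hT : TOT) (hL : LINK) : FIN := by
  intro R
  obtain ⟨ε, hε, H⟩ := uniform hT (δ := 1 / (2 * R + 2)) (by positivity)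
  obtain ⟨C, hC⟩ := exists_nat_gt (1 / ε)
  refine ⟨C, fun n hn r01 r10 r23 r32 hl hd ↦ ?_⟩
  have p0 : (0 : ℝ) < n 0 := by exact_mod_cast hn 0
  have p1 : (0 : ℝ) < n 1 := by exact_mod_cast hn 1
  have p2 : (0 : ℝ) < n 2 := by exact_mod_cast hn 2
  have p3 : (0 : ℝ) < n 3 := by exact_mod_cast hn 3
  have s01 : (n 0 : ℝ) ≤ R * n 1 := by exact_mod_cast r01
  have s10 : (n 1 : ℝ) ≤ R * n 0 := by exact_mod_cast r10
  have s23 : (n 2 : ℝ) ≤ R * n 3 := by exact_mod_cast r23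
  have s32 : (n 3 : ℝ) ≤ R * n 2 := by exact_mod_cast r32
  have hR0 : (0 : ℝ) ≤ R := Nat.cast_nonneg R
  have hl' : (C : ℝ) * ((n 0 : ℝ) + n 1) ≤ (n 2 : ℝ) + n 3 := by exact_mod_cast hl
  have hd' : (n 0 : ℝ) + n 1 ≤ R * |(n 0 : ℝ) - n 1| ∨ (n 2 : ℝ) + n 3 ≤ R * |(n 2 : ℝ) - n 3| := by
    rcases hd with h | h
    · left
      exact_mod_cast h
    · right
      exact_mod_cast h
  set S : ℝ := (n 0 : ℝ) + n 1 with hS
  set T : ℝ := (n 2 : ℝ) + n 3 with hT'
  have hSp : 0 < S := by positivity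
  have hTp : 0 < T := by positivity
  have e : (fun k ↦ (n k : ℝ) / ∑ l, (n l : ℝ)) =
      ![S / (S + T) * (n 0 / S), S / (S + T) * (1 - n 0 / S),
        (1 - S / (S + T)) * (n 2 / T), (1 - S / (S + T)) * (1 - n 2 / T)] := by
    funext k
    rw [Fin.sum_univ_four]
    have e1 : (1 : ℝ) - n 0 / S = n 1 / S := by
      rw [hS]
      field_simp
      ring
    have e2 : (1 : ℝ) - n 2 / T = n 3 / T := by
      rw [hT']
      field_simp
      ring
    have e3 : (1 : ℝ) - S / (S + T) = T / (S + T) := by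
      field_simp
      ring
    have e4 : (n 0 : ℝ) + n 1 + n 2 + n 3 = S + T := by
      rw [hS, hT']
      ring
    rw [e1, e2, e3, e4]
    fin_cases k
    · simp
      field_simp
    · simp
      field_simp
    · simp
      field_simp
    · simp
      field_simp
  have e1 : {x : Fin 4 → Fin 4 → ℝ | IsMetric x ∧ IsEinstein n (1 / 2) x} =
      {x : Fin 4 → Fin 4 → ℝ | IsMetric x ∧ NormEin ![S / (S + T) * (n 0 / S),
        S / (S + T) * (1 - n 0 / S), (1 - S / (S + T)) * (n 2 / T),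
        (1 - S / (S + T)) * (1 - n 2 / T)] x} := by
    ext x
    constructor
    · rintro ⟨h1, h2⟩
      refine ⟨h1, ?_⟩
      rw [← e]
      exact (ein_iff _ h1).1 h2
    · rintro ⟨h1, h2⟩
      refine ⟨h1, (ein_iff _ h1).2 ?_⟩
      rw [e]
      exact h2
  have ht1 : S / (S + T) < 1 := by
    rw [div_lt_one (by positivity)]
    linarith
  have hb1 : (n 2 : ℝ) / T < 1 := by
    rw [div_lt_one hTp]
    linarith
  rw [e1, hL _ _ _ (by positivity) hb1 (by positivity) ht1]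
  have key : ∀ x y : ℝ, 0 < x → 0 < y → x + y ≤ R * |x - y| →
      1 / (2 * R + 2) ≤ |x / (x + y) - 1 / 2| := by
    intro x y hx hy h
    have h1 : x / (x + y) - 1 / 2 = (x - y) / (2 * (x + y)) := by
      field_simp
      ring
    rw [h1, abs_div, abs_of_pos (by positivity : 0 < 2 * (x + y)),
      div_le_div_iff₀ (by positivity) (by positivity)]
    nlinarith [abs_nonneg (x - y)]
  refine H _ _ _ ?_ ?_ ?_ ?_ ?_ (by positivity) ?_
  · rw [div_le_div_iff₀ (by positivity) hSp]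
    nlinarith
  · rw [le_sub_comm, div_le_iff₀ (by positivity)]
    have : (1 : ℝ) - n 0 / S = n 1 / S := by
      rw [hS]
      field_simp
      ring
    rw [this, div_mul_eq_mul_div, le_div_iff₀ hSp]
    nlinarith
  · rw [div_le_div_iff₀ (by positivity) hTp]
    nlinarith
  · rw [le_sub_comm, div_le_iff₀ (by positivity)]
    have : (1 : ℝ) - n 2 / T = n 3 / T := by
      rw [hT']
      field_simp
      ring
    rw [this, div_mul_eq_mul_div, le_div_iff₀ hTp]
    nlinarith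
  · rcases hd' with h | h
    · left
      exact key _ _ p0 p1 h
    · right
      exact key _ _ p2 p3 h
  · rw [div_lt_iff₀ (by positivity)]
    rw [div_lt_iff₀ hε] at hC
    nlinarith

end Pool.Agent.Helper83.EIN2
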