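import Pool.Agent.Helper83.EIN2.Defs

/-!
# Project EIN2 (MP_06d934_gt): EXACTLY 22 invariant Einstein metrics on `SU(N)/S(U(n₀) × ⋯ × U(n₃))`
if two blocks are small and two are large. The goals, with complete proofs.

Relative sizes `t a, t b, (1-t) β, (1-t) g`, `b = 1 - a`, `g = 1 - β`; `t → 0`, `(a, β) → (a₀, β₀)`.
Unknowns `v = (u, w, y₀, z₀, y₁, z₁)`. Notation in the proofs: `C₂ = cs w y₀ z₀`, `C₃ = cs w z₀ y₀`,
`W₀ = cs y₀ z₀ w` (triangle `023`), `C₂' = cs w y₁ z₁`, `C₃' = cs w z₁ y₁`, `W₁ = cs y₁ z₁ w`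
(triangle `123`), `c₂ = cs y₀ y₁ u`, `A = cs u y₁ y₀`, `A' = cs u y₀ y₁` (triangle `012`),
`c₃ = cs z₀ z₁ u`, `B = cs u z₁ z₀`, `B' = cs u z₀ z₁` (triangle `013`).
Every side is the sum of the projections of the two others (`proj` in `Defs.lean`); conversely
(`cs_of_proj`) three numbers which satisfy the three projection identities are the cosines.
Useful lemmas in `Defs.lean`: `proj`, `cs_of_proj`, `one_add_cs`, `one_sub_cs`, `cs_comm`, `star0`,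
`star1`; in `EIN/Basic.lean`: `cs_le`, `le_cs`, `Tri.rot`, `Tri.swap`.
-/

set_option autoImplicit false

namespace Pool.Agent.Helper83.EIN2

open Finset Topology Filter Pool.Agent.Helper83.EIN

/-- **BD** (a priori bounds).

PROOF. Put `T = t + (1 - t) β`, `0 < T < 1` and `v' = ![v 0, v 2, v 4, v 3, v 5, v 1]`. `Sol2 a β t v` is
`Sol (t a / T) (t (1 - a) / T) ((1 - t) β / T) T v'` up to `cs_comm` (because `T · (t a / T) = t a` etc. and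
`1 - T = (1 - t) (1 - β)`). So `Pool.Agent.Helper83.EIN.ti` gives the four triangles. All cosines lie in `[-1, 1]` (`cs_le`,
`le_cs`), and the equations give the bounds, e.g. `v 0 ≥ 1 - (1 - t) β - (1 - t) (1 - β) = t`,
`v 2 ≥ 1 - t (1 - a) - (1 - t) (1 - β) = t a + (1 - t) β`, `v 2 ≤ 1 + t (1 - a) + (1 - t) (1 - β) ≤ 2` (`nlinarith`, as in
`Pool.Agent.Helper83.EIN.bd`). -/
def BD : Prop := ∀ (a β t : ℝ) (v : Fin 6 → ℝ), 0 < a → a < 1 → 0 < β → β < 1 → 0 < t → t < 1 →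
  Sol2 a β t v → Bd2 β t v

/-- **LINK** (metrics and solutions).

PROOF. With `T`, `v'` as in BD: `![t a, t (1-a), (1-t) β, (1-t) (1-β)] = ![T a', T b', T c', 1 - T]`, and
`Pool.Agent.Helper83.EIN.ncard_eq` gives the number of the solutions of `Sol a' b' c' T`; the permutation
`v ↦ ![v 0, v 2, v 4, v 3, v 5, v 1]` is injective and maps `{v | Sol2 a β t v}` onto them
(`Set.ncard_image_of_injective`). -/
def LINK : Prop := ∀ a β t : ℝ, 0 < β → β < 1 → 0 < t → t < 1 →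
  {x : Fin 4 → Fin 4 → ℝ | IsMetric x ∧
    NormEin ![t * a, t * (1 - a), (1 - t) * β, (1 - t) * (1 - β)] x}.ncard =
      {v : Fin 6 → ℝ | Sol2 a β t v}.ncard

/-- **LIM** (the limit points). USES `BD`.

PROOF. Otherwise there are `δ > 0` and sequences `a_k → a₀`, `β_k → β₀`, `t_k → 0⁺`, `v_k` with `Sol2` such that every `v_k`
has distance `≥ δ` (some coordinate) from every `L ∈ Lim β₀`; by `BD` `v_k ∈ Icc 0 2`, so a subsequence converges to `v`, and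
`v` has this property too. In the limit (all cosines of `v_k` are in `[-1,1]`, and the lengths `v 1, …, v 5` are bounded
below, so the cosines without `u` in the denominator converge):
`v 1 = 1`, `v 2 ≥ β₀`, `v 4 ≥ β₀`, `v 3 ≥ g`, `v 5 ≥ g` (`g = 1 - β₀`), `Tri` for the four triangles,
`v 2 = 1 - g cs 1 (v 3) (v 2)`, `v 3 = 1 - β₀ cs 1 (v 2) (v 3)`, the same for `(v 4, v 5)`, and
`v 0 = 1 - β₀ cs (v 2) (v 4) (v 0) - g cs (v 3) (v 5) (v 0)`, `v 0 ≥ 0`.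
*Positions.* For `(y, z) = (v 2, v 3)`, `C₃ = cs 1 z y`, `C₂ = cs 1 y z`: `1 = y C₂ + z C₃ = (1 - g C₃) C₂ + (1 - β₀ C₂) C₃`,
i.e. `(1 - C₂) (1 - C₃) = 0`. If `C₃ = 1`: `y = β₀` and `1 + z² - y² = 2 z`, `z = 1 ± β₀`. If `C₂ = 1`: `z = g`, `y = 1 ± g`.
So `(y, z)` is `L = (β₀, 1 + β₀)`, `M = (β₀, 1 - β₀)` or `R = (2 - β₀, 1 - β₀)`.
*The value of `u = v 0`.* Multiply the equation of `u` by the denominators. Both `L`: `u² (1/(2β₀) + g/(2(1+β₀)²)) = u`, so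
`u = 0` or `u = uL β₀`. Both `R`: the same with `β₀ ↔ g`. Both `M`: `u² = 2 β₀ g u`. `M, L` (either order):
`(u - 2β₀) ((1 + 2β₀) u + 2β₀²) = 0`, so `u = 2β₀`. `M, R`: the same with `β₀ ↔ g`. `L, R`:
`(u - 2) (3u + 2 - 2β₀ + 2β₀²) = 0`, so `u = 2`. All these points are in the list. -/
def LIM : Prop := ∀ a₀ β₀ : ℝ, 0 < a₀ → a₀ < 1 → 0 < β₀ → β₀ < 1 → ∀ δ > 0, ∃ ε > 0,
  ∀ (a β t : ℝ) (v : Fin 6 → ℝ), Near2 a₀ β₀ ε a β t → Sol2 a β t v →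
    ∃ L ∈ Lim β₀, ∀ i, |v i - L i| < δ

/-- **MMF** (no solution near the far limit point of `MM`). USES `BD`.

PROOF. `star0`: `(1 - C₂) (1 - C₃) = t X`, `X = a W₀ + b W₁ + C₂ C₃ - b (A C₂ + B C₃)`. The left side is `≥ 0` (`BD`, `cs_le`).
All lengths of the limit point `(2β₀g, 1, β₀, g, β₀, g)` are positive, so `X` is a continuous function of `(a, v)` near it,
with the value `-a₀ - b₀ + 1 - b₀ (g + β₀) = -b₀ < 0` (`W₀ = W₁ = -1`, `C₂ = C₃ = 1`, `A = 2β₀g/(2β₀) = g`,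
`B = 2β₀g/(2g) = β₀`). So `X < 0` near it, a contradiction. -/
def MMF : Prop := ∀ a₀ β₀ : ℝ, 0 < a₀ → a₀ < 1 → 0 < β₀ → β₀ < 1 → ∃ δ > 0, ∃ ε > 0,
  ∀ (a β t : ℝ) (v : Fin 6 → ℝ), Near2 a₀ β₀ ε a β t → Sol2 a β t v →
    (∀ i, |v i - (![2 * β₀ * (1 - β₀), 1, β₀, 1 - β₀, β₀, 1 - β₀] : Fin 6 → ℝ) i| < δ) → False

/-- **REG** (regular limit points).

PROOF. For positive `v`, `Sol2 a β t v ↔ FR a β t v = 0` (each component of `FR` is the equation times a positive number;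
`cs` unfolded, `field_simp`). `FR` is a polynomial in `(a, β, t, v)`, so `Pool.Agent.Helper83.EINU.local_zero` (file
`EINU/CountP.lean`, with `T = ℝ × ℝ × ℝ`, `F τ = FR τ.1 τ.2.1 τ.2.2`, `τ₀ = (a₀, β₀, 0)`) gives `G : T → (Fin 6 → ℝ)`,
`G τ → z`, `FR τ (G τ) = 0` near `τ₀`, and every zero `v` of `FR τ` with `(τ, v)` near `(τ₀, z)` is `G τ`. Choose `δ` smaller
than all `z i`, than the given `δ₀` and than the radius of uniqueness, then `ε` such that `|G τ i - z i| < δ`. -/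
def REG : Prop := ∀ (a₀ β₀ : ℝ) (z : Fin 6 → ℝ), (∀ i, 0 < z i) → FR a₀ β₀ 0 z = 0 →
  (∀ d : Fin 6 → ℝ, HasDerivAt (fun s : ℝ ↦ FR a₀ β₀ 0 (z + s • d)) 0 0 → d = 0) →
  ∀ δ₀ > 0, ∃ δ > 0, δ ≤ δ₀ ∧ ∃ ε > 0, ∀ a β t, Near2 a₀ β₀ ε a β t →
    ∃! v : Fin 6 → ℝ, (∀ i, |v i - z i| < δ) ∧ Sol2 a β t v

/-- **NR** (the limit points `LR` and `LL` far are nondegenerate zeros of `FR`).

PROOF. `FR a β 0 z = 0`: direct. Let `d` be in the kernel (take the derivatives of the six components along `z + s d` at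
`s = 0`, e.g. with `HasDerivAt` of polynomials and uniqueness of the derivative). Component 1 of `FR a β 0` is
`2 v₂v₃v₄v₅ (v₁ - 1)`: `d 1 = 0`. Components 2, 3 at a position `(y, z)` with `d 1 = 0` give a linear system for `(d 2, d 3)`,
components 4, 5 the same for `(d 4, d 5)`: for the position `L = (β, 1+β)` the functions `y - 1 + g cs 1 z y`,
`z - 1 + β cs 1 y z` have the Jacobian matrix `[1 - gβ/(1+β), gβ/(1+β); 1+β, -β]` with determinant `-2β/(1+β) ≠ 0`, for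
`R = (1+g, g)` the same with `β ↔ g` (`FR` components are these functions times positive factors). So `d 2 = … = d 5 = 0`, and
component 0 gives `κ d 0 = 0`, where `κ/(2 v₂v₃v₄v₅) = 1 - u (β/(y₀y₁) + g/(z₀z₁))` is `-1` at `LL` far (definition of `uL`)
and `1 - 6/((2-β)(1+β)) < 0` at `LR`. -/
def NR : Prop := ∀ a β : ℝ, 0 < β → β < 1 →
  (FR a β 0 ![2, 1, β, 1 + β, 2 - β, 1 - β] = 0 ∧
    ∀ d : Fin 6 → ℝ, HasDerivAt (fun s : ℝ ↦ FR a β 0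
      ((![2, 1, β, 1 + β, 2 - β, 1 - β] : Fin 6 → ℝ) + s • d)) 0 0 → d = 0) ∧
  (FR a β 0 ![uL β, 1, β, 1 + β, β, 1 + β] = 0 ∧
    ∀ d : Fin 6 → ℝ, HasDerivAt (fun s : ℝ ↦ FR a β 0
      ((![uL β, 1, β, 1 + β, β, 1 + β] : Fin 6 → ℝ) + s • d)) 0 0 → d = 0)

/-- **CR** (one solution `LR`, one solution `LL` far). USES `LIM`, `REG`, `NR`.

PROOF. Let `m = min β₀ (1 - β₀) / 4` and apply `REG` with `z = (2, 1, β₀, 1+β₀, 2-β₀, 1-β₀)` and `δ₀ = m`: `δ`, `ε₁`. Then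
`LIM` with this `δ`: a solution with `1 ≤ v 3` and `1 ≤ v 4` is near some `L ∈ Lim β₀`, and only the point `LR` has
`L 3 + δ > 1` and `L 4 + δ > 1` (the others have `L 3 = 1 - β₀` or `L 4 = β₀`; `δ < β₀, 1 - β₀`). Conversely the solution of
`REG` satisfies `1 ≤ v 3`, `1 ≤ v 4`. So the set has exactly one element (`Set.ncard_eq_one`). The same for `LL` far:
`1 ≤ v 3`, `1 ≤ v 5` leaves `LL` near (`L 0 = 0`) and far (`uL β₀ > β₀`, because `uL β₀ = 2β₀/(1 + β₀(1-β₀)/(1+β₀)²)` and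
`β₀(1-β₀) < (1+β₀)²`); take `δ₀` also smaller than `(uL β₀ - β₀)/2` and `β₀/2`, and `|β - β₀|` smaller than these. -/
def CR : Prop := ∀ a₀ β₀ : ℝ, 0 < a₀ → a₀ < 1 → 0 < β₀ → β₀ < 1 → ∃ ε > 0,
  ∀ a β t, Near2 a₀ β₀ ε a β t →
    {v : Fin 6 → ℝ | Sol2 a β t v ∧ 1 ≤ v 3 ∧ 1 ≤ v 4}.ncard = 1 ∧
    {v : Fin 6 → ℝ | Sol2 a β t v ∧ 1 ≤ v 3 ∧ 1 ≤ v 5 ∧ β ≤ v 0}.ncard = 1

/-! ### The chart `ML` -/

/-- **MLE** (a solution gives a zero of the chart `ML`).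

PROOF. The cosines in terms of `p = parML t v` are (multiply the definitions by `t`): `C₂ = 1 - t p₀`, `C₃ = 1 - t p₁`,
`W₀ = -1 + t p₂`, `W₁ = 1 - t p₃`, `C₂' = -1 + t p₄`, `C₃' = 1 - t p₅`, `c₂ = -1 + t p₆`, `A = 1 - t p₇`, `A' = 1 - t p₈`,
`B = 1 - t p₉`, `B' = -1 + t p₁₀`, `c₃ = 1 - t p₁₁`. So `lenML = v` are the Einstein equations. By these,
`y₀ + z₀ - w = t e`, `w + y₁ - z₁ = t f₁`, `y₀ + y₁ - u = t f₂`, `u + z₀ - z₁ = t f₃` with `e, f₁, f₂, f₃` as in `FML`.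
The components of `t FML` are the projection identities: 0: `y₀ = w C₂ + z₀ W₀`; 1: `z₀ = w C₃ + y₀ W₀`;
3: `z₁ = w C₃' + y₁ W₁`; 4: `w = y₁ C₂' + z₁ C₃'`; 5: `y₁ = w C₂' + z₁ W₁`; 6: `u = y₀ A' + y₁ A`; 7: `y₀ = u A' + y₁ c₂`;
8: `y₁ = u A + y₀ c₂`; 9: `z₁ = u B + z₀ c₃`; 10: `u = z₀ B' + z₁ B`; 11: `z₀ = u B' + z₁ c₃`. Component 2: the identity
`w = y₀ C₂ + z₀ C₃` is `y₀ p₀ + z₀ p₁ - e = 0`, and `y₀ - (1-t) β = t (a + t b p₇ + (1-t) g p₁)`,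
`z₀ - (1-t) g = t (a + t b p₉ + (1-t) β p₀)` show that `y₀ p₀ + z₀ p₁ - e = t FML₂`. -/
def MLE : Prop := ∀ (a β t : ℝ) (v : Fin 6 → ℝ), 0 < t → t < 1 → 0 < β → β < 1 → Sol2 a β t v →
  lenML a β t (parML t v) = v ∧ FML a β t (parML t v) = 0

/-- **MLS** (a zero of the chart `ML` gives a solution).

PROOF. With `v = lenML a β t p` (positive) the identities of MLE read backwards give the twelve projection identities for the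
numbers `1 - t p₀` etc.; by `cs_of_proj` these are the cosines of the triangles with the sides `v`; so the definition of
`lenML` is the Einstein equations, and `parML t v = p` (`t ≠ 0`). -/
def MLS : Prop := ∀ (a β t : ℝ) (p : Fin 12 → ℝ), 0 < t → t < 1 → 0 < β → β < 1 →
  (∀ i, 0 < lenML a β t p i) → FML a β t p = 0 →
    Sol2 a β t (lenML a β t p) ∧ parML t (lenML a β t p) = p

/-- **MLB** (bounds in the chart `ML`). USES `BD`.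

PROOF. Choose `δ, ε` so small that all lengths are within `min β₀ g₀ / 8` of the limit point `(2β₀, 1, β₀, g₀, β₀, 1+β₀)`, so they
are bounded below by a positive constant. `C` = constants depending on `a₀, β₀` only. Put
`E = y₀ + z₀ - w`, `F₁ = w + y₁ - z₁`, `F₂ = y₀ + y₁ - u`, `F₃ = u + z₀ - z₁`, all `≥ 0` (`BD`), and `F₂ + F₃ = E + F₁`.
By `one_add_cs`, `one_sub_cs` the nonnegative numbers `1 + W₀, 1 - C₂, 1 - C₃` are `E` times bounded positive factors,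
`1 - W₁, 1 + C₂', 1 - C₃'` are `F₁` times bounded factors, `1 + c₂, 1 - A, 1 - A'` are `F₂` times, `1 - c₃, 1 - B, 1 + B'` are
`F₃` times bounded factors. So it suffices to show `E, F₁ ≤ C t` (all parameters are these numbers over `t`).
(1) `F₁ ≤ C t E`: by the equations `F₁ = (1-t) (g (1 - C₃') + β (1 + C₂')) + t (a (1-A') + a (1+B') - a (1+W₀) + b (1-W₁))`. Here
`g (1 - C₃') + β (1 + C₂') = F₁ κ` with `κ = g (y₁ - w + z₁)/(2 w z₁) + β (w + y₁ + z₁)/(2 w y₁)`, which is near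
`g₀ β₀/(1+β₀) + (1 + β₀) = (1 + 3β₀)/(1 + β₀)`; for `δ, ε` small `(1-t) κ ≥ 1 + c`, `c = β₀/(1+β₀)`. The bracket is
`≥ -C (E + F₁)` (drop the nonnegative terms). So `c F₁ ≤ C t (E + F₁)`, and `F₁ ≤ C t E` for small `t`.
(2) `star0`: `(1 - C₂) (1 - C₃) = t X`; the left side is `≥ c E²`. With `δ₂ = 1 - C₂` etc.
`X = a (1+W₀) - b (1-W₁) - (δ₂+δ₃) + δ₂δ₃ + b (δ₂ + δ₃ + δ_A + δ_B) - b (δ_A δ₂ + δ_B δ₃)` (the constant terms
`-a + b + 1 - 2b` cancel), so `|X| ≤ C (E + F₁ + F₂ + F₃) ≤ C (E + F₁) ≤ C E`. So `c E² ≤ C t E`, `E ≤ C t`. -/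
def MLB : Prop := ∀ a₀ β₀ : ℝ, 0 < a₀ → a₀ < 1 → 0 < β₀ → β₀ < 1 → ∃ δ > 0, ∃ ε > 0, ∃ C : ℝ,
  ∀ (a β t : ℝ) (v : Fin 6 → ℝ), Near2 a₀ β₀ ε a β t → Sol2 a β t v →
    (∀ i, |v i - (![2 * β₀, 1, β₀, 1 - β₀, β₀, 1 + β₀] : Fin 6 → ℝ) i| < δ) →
      ∀ i, |parML t v i| ≤ C

/-- **MLZ** (the zeros of the chart `ML` at `t = 0`, nondegenerate).

PROOF. At `t = 0`: `u = 2β`, `w = 1`, `y₀ = y₁ = β`, `z₀ = g`, `z₁ = 1 + β`. All components except 2 are linear. With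
`e = g p₁ + β p₀`: components 0, 1 give `p₀ = e g/β`, `p₁ = e β/g`, `p₂ = e/(βg)`; 3, 4, 5 give `p₃ = p₄ = p₅ = 0` (4: `2 p₅ = 0`;
3: `p₄ = p₃`; 5: `2β p₃ = 0`); 6, 7, 8: `p₈ = p₇ =: α`, `p₆ = 4α`, `g p₁₁ = e β + 2 β α`; 9: `2β p₉ = e g - 4 β α`; 10:
`g p₁₀ = e - 2βα + (1+β) p₉`; 11: `4βα(1+3β) = 2βeg`, `α = e g/(2(1+3β))`. So `p = zML β e`, and component 2 at `zML β e` is
`e (e - eML a β)`. This gives both inclusions. *Nondegeneracy*: the derivative of `s ↦ FML a β 0 (z + s d)` at `0` gives the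
linear equations of `d`; the same linear algebra gives `d = (zML β 1) η` (`zML` is linear in `e`) with `η = g d₁ + β d₀`, and
component 2 gives `(2e - eML a β) η = 0`, so `η = 0` because `e ∈ {0, eML a β}` and `eML a β > 0`. -/
def MLZ : Prop := ∀ a β : ℝ, 0 < a → a < 1 → 0 < β → β < 1 →
  0 < eML a β ∧ (∀ p, FML a β 0 p = 0 ↔ p = zML β 0 ∨ p = zML β (eML a β)) ∧
    (∀ e, e = 0 ∨ e = eML a β → ∀ d : Fin 12 → ℝ,
      HasDerivAt (fun s : ℝ ↦ FML a β 0 (zML β e + s • d)) 0 0 → d = 0) ∧ zML β 0 ≠ zML β (eML a β)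

/-- **MLC** (two solutions `ML`). USES `LIM`, `MLE`, `MLS`, `MLB`, `MLZ`.

PROOF. As `Pool.Agent.Helper83.EINU.gB` (file `EINU/B.lean`). Let `δ, ε, C` be from `MLB` and enlarge `C` such that `C ≥ 1` and all
coordinates of the two zeros at `(a₀, β₀)` are `≤ C`. Apply `count_set2` with `F = FML` (a polynomial: `ContDiff`, `fun_prop`),
`K = Icc (-C) C`, `Z` the two zeros (`MLZ`), `U = {p | ∀ i, |p i| < C + 1}` (open box) and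
`S a β t = {p | Sol2 a β t (lenML a β t p) ∧ lenML 2 < 1 ∧ lenML 3 < 1 ∧ 1 ≤ lenML 5 ∧ parML t (lenML a β t p) = p}`.
`S ⊆ K`, `F = 0`: by `LIM` the solution is near a point of `Lim β₀`; `v 2 < 1`, `v 3 < 1`, `1 ≤ v 5` leave only `ML` (the other
points have `L 3 = 1 + β₀` or `L 2 = 2 - β₀` or `L 5 = 1 - β₀`); then `MLB`, `MLE`. Conversely, for `p ∈ U` and small
`t, |β - β₀|` the lengths are near `(2β₀, 1, β₀, g₀, β₀, 1 + β₀)` (each `lenML` is its value at `t = 0` plus `t` times a bounded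
polynomial), so positive with the three inequalities, and `MLS` applies. Finally `lenML a β t` is a bijection from `S a β t`
onto the set of solutions (inverse `parML t`, `MLE`), so the cardinalities agree (`Set.ncard_image_of_injOn`). -/
def MLC : Prop := ∀ a₀ β₀ : ℝ, 0 < a₀ → a₀ < 1 → 0 < β₀ → β₀ < 1 → ∃ ε > 0,
  ∀ a β t, Near2 a₀ β₀ ε a β t →
    {v : Fin 6 → ℝ | Sol2 a β t v ∧ v 2 < 1 ∧ v 3 < 1 ∧ 1 ≤ v 5}.ncard = 2

/-! ### The near pairs: identities for the triangles `012`, `013` in the charts `MM`, `LL` -/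

/-- **PR** (the triangle `012` with a small side `u = tξ`).

PROOF. (→) `y' = u A + y c`, `y = u A' + y' c`, `u = y A' + y' A` (`proj`), `c = 1 - t²τ`, `u = tξ`. The sum of the first two:
`(1 - c) (y + y') = u (A + A')`, i.e. the third claim (divide by `t²`). The first identity is the first claim. Moreover
`u² (1 - A²) = t² y τ (y + y' - u A)`: from `(u A)² = (y' - y c)²` and `u² = y² + y'² - 2 y y' c` one gets
`u² - (uA)² = y² (1 - c²) = (1 - c) y (y + c y) = (1 - c) y (y + y' - u A)`; divide by `t²`.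
(←) From the first and third claim one gets the first two projection identities; then
`u² = (uA)² + (1-c) y (y + y' - uA) = (y' - c y)² + (1 - c²) y² = y² + y'² - 2 c y y'
= y (y - c y') + y' (y' - c y) = u (y A' + y' A)`, and `u > 0` gives the third identity; now `cs_of_proj`. -/
def PR : Prop := ∀ (t ξ y y' A A' τ σ : ℝ), 0 < t → 0 < ξ → 0 < y → 0 < y' → A + A' = t * σ →
  ((cs (t * ξ) y' y = A ∧ cs (t * ξ) y y' = A' ∧ cs y y' (t * ξ) = 1 - t ^ 2 * τ) ↔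
    (y' - y = t * (ξ * A - t * y * τ) ∧ ξ ^ 2 * (1 - A ^ 2) - y * τ * (y + y' - t * ξ * A) = 0 ∧
      ξ * σ - τ * (y + y') = 0))

/-- **NB** (bounds for a near pair). USES `BD`.

PROOF. All lengths except `u` are `≥ c > 0` for `δ, ε` small. The law of cosines
`u² = (y₀ - y₁)² + 2 y₀ y₁ (1 - c₂)` gives `0 ≤ 1 - c₂ ≤ C u²`, the same for `c₃`. `u = 1 - (1-t) β c₂ - (1-t) g c₃ =
t + (1-t) (β (1-c₂) + g (1-c₃)) ≤ t + C u² ≤ t + C δ u`, so `t ≤ u ≤ 2t` if `C δ ≤ 1/2`; `1 - c₂, 1 - c₃ ≤ C t²`. The triangle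
inequality gives `|y₁ - y₀|, |z₁ - z₀| ≤ u ≤ 2t`. `proj`: `y₁ = u A + y₀ c₂`, `y₀ = u A' + y₁ c₂`; the sum is
`(1 - c₂) (y₀ + y₁) = u (A + A')`, so `|A + A'| ≤ C t` (`u ≥ t`), the same for `B + B'`. -/
def NB : Prop := ∀ (a₀ β₀ : ℝ) (L : Fin 6 → ℝ), 0 < a₀ → a₀ < 1 → 0 < β₀ → β₀ < 1 →
  L 0 = 0 → (∀ i, i ≠ 0 → 0 < L i) → ∃ δ > 0, ∃ ε > 0, ∃ C : ℝ,
  ∀ (a β t : ℝ) (v : Fin 6 → ℝ), Near2 a₀ β₀ ε a β t → Sol2 a β t v → (∀ i, |v i - L i| < δ) →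
    t ≤ v 0 ∧ v 0 ≤ 2 * t ∧ 0 ≤ 1 - cs (v 2) (v 4) (v 0) ∧ 1 - cs (v 2) (v 4) (v 0) ≤ C * t ^ 2 ∧
      0 ≤ 1 - cs (v 3) (v 5) (v 0) ∧ 1 - cs (v 3) (v 5) (v 0) ≤ C * t ^ 2 ∧
      |v 4 - v 2| ≤ 2 * t ∧ |v 5 - v 3| ≤ 2 * t ∧
      |cs (v 0) (v 4) (v 2) + cs (v 0) (v 2) (v 4)| ≤ C * t ∧
      |cs (v 0) (v 5) (v 3) + cs (v 0) (v 3) (v 5)| ≤ C * t

/-! ### The chart `MM` -/

/-- **MME** (a solution gives a zero of the chart `MM`). USES `PR`.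

PROOF. In terms of `p = parMM t v`: `A = p₀`, `B = -p₀ + t p₁`, `C₂ = 1 - t p₂`, `C₃ = 1 - t p₃`, `W₀ = -1 + t p₄`,
`C₂' = 1 - t (p₂ + t p₅)`, `C₃' = 1 - t (p₃ + t p₆)`, `W₁ = -1 + t (p₄ + t p₇)`, `c₂ = 1 - t² p₈`, `c₃ = 1 - t² p₉`,
`A' = -A + t p₁₀`, `B' = -B + t p₁₁`. So `lenMM = v` are the Einstein equations (`u = 1 - (1-t)β c₂ - (1-t) g c₃ = t ξ`).
`PR` for `(ξ, y₀, y₁, A, A', p₈, p₁₀)` and `(ξ, z₀, z₁, B, B', p₉, p₁₁)` gives the components 8, 10, 9, 11 and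
`y₁ - y₀ = t (ξ A - t y₀ p₈)`, `z₁ - z₀ = t (ξ B - t z₀ p₉)`; the equations give
`y₁ - y₀ = t (A - t a p₁₀ + t (1-t) g p₆)`, `z₁ - z₀ = t (B - t a p₁₁ + t (1-t) β p₅)` and `ξ = 1 + t (1-t) T`, so components 6
and 7 (divide by `t²`). `y₀ + z₀ - w = t e₀`, `y₁ + z₁ - w = t e₁`, where `e₁ = (1-t)(g k₃ + β k₂) + t (a p₄ + b k₀ - a μ')`
(`k₂ = p₂ + t p₅` etc., `A' + B' = t μ'`), and `e₁ - e₀ = t X`. Components 0, 1 are `y₀ = w C₂ + z₀ W₀`,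
`z₀ = w C₃ + y₀ W₀` over `t`; the same for the block `1` gives `e₁ = z₁ k₀ - w k₂ = y₁ k₀ - w k₃`; the differences over `t` are the
components 4 and 5 (with `z₁ - z₀`, `y₁ - y₀` as above). Components 2, 3: `w = y₀ C₂ + z₀ C₃` is `y₀ p₂ + z₀ p₃ = e₀`, and
`y₀ - (1-t) β = t (1 - b A + (1-t) g p₃)`, `z₀ - (1-t) g = t (1 - b B + (1-t) β p₂)`; the same for the block `1` with
`a, A', B', k₂, k₃`. -/
def MME : Prop := ∀ (a β t : ℝ) (v : Fin 6 → ℝ), 0 < t → t < 1 → 0 < β → β < 1 → Sol2 a β t v →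
  lenMM a β t (parMM t v) = v ∧ FMM a β t (parMM t v) = 0

/-- **MMS** (a zero of the chart `MM` gives a solution). USES `PR`.

PROOF. Put `v = lenMM a β t p` (positive, so `ξ > 0`), and define the twelve numbers `A, B, …` by `p` as in MME. The definition of
`lenMM` gives `y₁ - y₀ = t (A - t a p₁₀ + t (1-t) g p₆)` etc.; components 6, 8, 10 and `PR` (backwards) show that
`A, A', c₂` are the cosines of the triangle `012`, components 7, 9, 11 the same for `013`. Components 0, 1, 2 are the three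
projection identities of the triangle `023` (MME backwards), components 3, 4, 5 (with 0, 1 and the differences `y₁ - y₀`,
`z₁ - z₀`) those of `123`; `cs_of_proj`. So `v` satisfies the Einstein equations, and `parMM t v = p`. -/
def MMS : Prop := ∀ (a β t : ℝ) (p : Fin 12 → ℝ), 0 < t → t < 1 → 0 < β → β < 1 →
  (∀ i, 0 < lenMM a β t p i) → FMM a β t p = 0 →
    Sol2 a β t (lenMM a β t p) ∧ parMM t (lenMM a β t p) = p

/-- **MMB** (bounds in the chart `MM`). USES `BD`, `NB`.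

PROOF. `NB` with `L = (0, 1, β₀, g₀, β₀, g₀)`: `A ∈ [-1,1]`, `p₈, p₉, p₁₀, p₁₁` are bounded. Let `E₀ = y₀ + z₀ - w`,
`E₁ = y₁ + z₁ - w`, both `≥ 0`; `1 - C₂, 1 - C₃, 1 + W₀` are `E₀` times factors in `[c, C]`, `0 < c`, the same for `E₁`
(`one_sub_cs`, `one_add_cs`). `a · star0 + b · star1`:
`a (1-C₂)(1-C₃) + b (1-C₂')(1-C₃') = t Y`,
`Y = a W₀ + b W₁ + a C₂C₃ + b C₂'C₃' - ab (A C₂ + B C₃ + A' C₂' + B' C₃')`. With `C₂ = 1 - …` etc. and `|A + A'|, |B + B'| ≤ C t`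
one gets `|Y| ≤ C (E₀ + E₁ + t)`. So `c (E₀ + E₁)² ≤ C t (E₀ + E₁ + t)`, hence `E₀ + E₁ ≤ C t`, and `p₂, p₃, p₄` are bounded.
`μ`: the equations give `b t (A + B) = (1-t) (g (1-C₃) + β (1-C₂)) - E₀ + t (a (1+W₀) + b (1+W₁))`, and
`E₀ = y₀ (1-C₂) + z₀ (1-C₃)` (`proj`); `|y₀ - β|, |z₀ - g| ≤ C t` (from the equations `e2`, `e3` with `1 - C₃, 1 - C₂ ≤ C t`), so the
right side is `≤ C t²` in absolute value: `|A + B| ≤ C t`. Finally `E₁ - E₀ = (y₁ - y₀) + (z₁ - z₀)` and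
`y₁ - y₀ = u A - y₀ (1 - c₂)`, `z₁ - z₀ = u B - z₀ (1 - c₃)` (`proj`), so `|E₁ - E₀| ≤ C t²`; the factors
`(z + w - y)/(2 w y)` etc. of the two blocks differ by `≤ C t`; so `|C₂ - C₂'|, |C₃ - C₃'|, |W₀ - W₁| ≤ C t²`. -/
def MMB : Prop := ∀ a₀ β₀ : ℝ, 0 < a₀ → a₀ < 1 → 0 < β₀ → β₀ < 1 → ∃ δ > 0, ∃ ε > 0, ∃ C : ℝ,
  ∀ (a β t : ℝ) (v : Fin 6 → ℝ), Near2 a₀ β₀ ε a β t → Sol2 a β t v →
    (∀ i, |v i - (![0, 1, β₀, 1 - β₀, β₀, 1 - β₀] : Fin 6 → ℝ) i| < δ) →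
      ∀ i, |parMM t v i| ≤ C

/-- The four values of `(s, e)` in the chart `MM`. -/
def seMM (a β s e : ℝ) : Prop := (s = 1 ∧ e = 0) ∨ (s = -1 ∧ e = 0) ∨ (s = 1 - 2 * β ∧ e = 2 * a) ∨
  (s = -(1 - 2 * β) ∧ e = 2 * (1 - a))

/-- **MMZ** (the zeros of the chart `MM` at `t = 0`).

PROOF. At `t = 0`: `w = 1`, `y₀ = y₁ = β`, `z₀ = z₁ = g`, `ξ = 1`, `A = s := p₀`, `B = -s`, `A' = -s`, `B' = s`, `k₂ = p₂` etc.;
`G = 1 - s²`, `d = 1 - 2a`, `κ = g - β = 1 - 2β`, `k = κ/(βg)`, `h = G/(2βg)`, `e = g p₃ + β p₂`. Components 0, 1: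
`p₂ = e g/β`, `p₃ = e β/g`, `p₄ = e/(βg)`. 8–11: `p₈ = G/(2β²)`, `p₉ = G/(2g²)`, `p₁₀ = G/β`, `p₁₁ = G/g`, so `T = h`,
`μ' = 2h - μ`. 2: `-2e - b s e k + e² + b μ = 0`; 3: `-2e + a s e k + e² + a μ' = 0`; the difference: `μ = 2 a h + s e k`, and then
2 is (i) `e² - 2e + 2 a b h = 0`. 6: `g p₆ = h s - d G/(2β)`; 7: `β p₅ = -h s - d G/(2g)`. `X = -d h + s e k`; 4:
`g p₇ = X + s p₄ + p₅`; 5: `β p₇ = X - s p₄ + p₆`; eliminating `p₇`: (ii) `h (s - κ d) = 2 s e`. So `p = zMM a β s e`, with (i)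
and (ii), i.e. (`4βg = 1 - κ²`, `4ab = 1 - d²`)
(i) `(1-κ²) (e² - 2e) + (1-d²) (1-s²) = 0`, (ii) `(1 - s²) (s - κ d) = s e (1-κ²)`. *Solutions.* If `s ≠ 0` insert
`e = (1-s²)(s-κd)/(s(1-κ²))` in (i) and multiply by `s² (1-κ²)`:
`(1-s²) · ( -(s² - κ²) (s² - 2dκs + d²) ) = 0` (check by `ring`); `s² - 2dκs + d² = (s - dκ)² + d² (1-κ²) > 0`, so `s = ±1`
(then (ii) gives `e = 0`) or `s = ±κ` (then (ii) gives `e = 1 ∓ d`, i.e. `2a` or `2b`). If `s = 0` then `κ d = 0`; if `κ = 0` (i)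
gives `e = 1 ± d` (both in the list, `s = ±κ = 0`); if `κ ≠ 0` then `d = 0` and (i) has no real solution
(`(e-1)² = 1 - 1/(1-κ²) < 0`). The converse (the four points are zeros) is direct. Under the hypothesis the four pairs
`(s, e)` are different (`|κ| < 1`), and so are the points (`p₀ = s`, `p₄ = e/(βg)`). -/
def MMZ : Prop := ∀ a β : ℝ, 0 < a → a < 1 → 0 < β → β < 1 → (a ≠ 1 / 2 ∨ β ≠ 1 / 2) →
  (∀ p, FMM a β 0 p = 0 ↔ ∃ s e, seMM a β s e ∧ p = zMM a β s e) ∧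
    {p : Fin 12 → ℝ | ∃ s e, seMM a β s e ∧ p = zMM a β s e}.ncard = 4

/-- **MMN** (the zeros of the chart `MM` are nondegenerate).

PROOF. Notation of MMZ. The derivative of `s' ↦ FMM a β 0 (z + s' d)` at `0` vanishes: twelve linear equations for `d : Fin 12 → ℝ`.
With `ṡ = d₀`, `ė = g d₃ + β d₂` the linear algebra of MMZ (differentiated) gives: 0, 1: `d₂ = ė g/β`, `d₃ = ė β/g`,
`d₄ = ė/(βg)`; 8–11: `d₈ = -s ṡ/β²` etc.; 2, 3: `d₁`; 6, 7: `d₆, d₅`; 4, 5: `d₇`, i.e. `d` is the derivative of `zMM` along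
`(ṡ, ė)`, and `(ṡ, ė)` is in the kernel of the Jacobian matrix of (i), (ii). The Jacobian determinant of
`G₃ = (1-s²)(s-κd) - s e (1-κ²)`, `G₄ = (1-κ²)(e²-2e) + (1-d²)(1-s²)` with respect to `(s, e)` is
`2 (1-κ²) ((d - sκ)² + 1 - κ²) > 0` at `(±1, 0)`, `-2 (1-κ²) (d² (1-κ²) + κ² (1-d)²)` at `(κ, 2a)` and
`-2 (1-κ²) (d² (1-κ²) + κ² (1+d)²)` at `(-κ, 2b)`, not zero because `(d, κ) ≠ (0, 0)` and `|d| < 1`. So `ṡ = ė = 0`, `d = 0`. -/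
def MMN : Prop := ∀ a β : ℝ, 0 < a → a < 1 → 0 < β → β < 1 → (a ≠ 1 / 2 ∨ β ≠ 1 / 2) →
  ∀ s e, seMM a β s e → ∀ d : Fin 12 → ℝ,
    HasDerivAt (fun r : ℝ ↦ FMM a β 0 (zMM a β s e + r • d)) 0 0 → d = 0

/-- **MMC** (four solutions `MM`). USES `LIM`, `MMF`, `MME`, `MMS`, `MMB`, `MMZ`, `MMN`.

PROOF. As MLC (see there), with `FMM`, `lenMM`, `parMM`, `K = Icc (-C) C`, `U` the open box with `C + 1`. A solution with `v 2, v 3,
v 4, v 5 < 1` is by `LIM` near the point `MM` near or `MM` far, the latter is excluded by `MMF`; then `MMB`, `MME`. Conversely for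
`p ∈ U`, `t` small: `lenMM 0 = t (1 + (1-t) t (β p₈ + g p₉)) > 0`, the other lengths are near `(1, β₀, g₀, β₀, g₀)`, so
positive and `lenMM 2, 3, 4, 5 < 1`; `MMS`. The number of the zeros is 4 (`MMZ`; the Finset `Z` from the finite set). -/
def MMC : Prop := ∀ a₀ β₀ : ℝ, 0 < a₀ → a₀ < 1 → 0 < β₀ → β₀ < 1 → (a₀ ≠ 1 / 2 ∨ β₀ ≠ 1 / 2) →
  ∃ ε > 0, ∀ a β t, Near2 a₀ β₀ ε a β t →
    {v : Fin 6 → ℝ | Sol2 a β t v ∧ v 2 < 1 ∧ v 3 < 1 ∧ v 4 < 1 ∧ v 5 < 1}.ncard = 4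

/-! ### The chart `LL` -/

/-- **LLE** (a solution gives a zero of the chart `LL`). USES `PR`.

PROOF. In terms of `p = parLL t v`: `A = p₀`, `B = p₀ - t p₁`, `W₀ = 1 - t² p₂`, `C₂ = -1 + t² p₃`, `C₃ = 1 - t² p₄`,
`W₁ = 1 - t² p₅`, `C₂' = -1 + t² p₆`, `C₃' = 1 - t² p₇`, `c₂ = 1 - t² p₈`, `c₃ = 1 - t² p₉`, `A' = -A + t p₁₀`, `B' = -B + t p₁₁`;
so `lenLL = v` are the Einstein equations. `w + y₀ - z₀ = t² q₀`, `w + y₁ - z₁ = t² q₁` (`A' - B' = t μ'`). Components 0–5 are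
the projection identities over `t²`: 0: `z₀ = w C₃ + y₀ W₀`; 1: `w = y₀ C₂ + z₀ C₃`; 2: `y₀ = w C₂ + z₀ W₀`; 3, 4, 5: the same for
the block `1`. `PR` for `(ξ, y₀, y₁, A, A', p₈, p₁₀)`, `(ξ, z₀, z₁, B, B', p₉, p₁₁)` gives 8, 10, 9, 11 and
`y₁ - y₀ = t (ξ A - t y₀ p₈)`, `z₁ - z₀ = t (ξ B - t z₀ p₉)`; the equations give
`y₁ - y₀ = t (A - t a p₁₀ + t (1-t) g (p₇ - p₄))`, `z₁ - z₀ = t (B - t a p₁₁ - t (1-t) β (p₆ - p₃))`: components 6, 7. -/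
def LLE : Prop := ∀ (a β t : ℝ) (v : Fin 6 → ℝ), 0 < t → t < 1 → 0 < β → β < 1 → Sol2 a β t v →
  lenLL a β t (parLL t v) = v ∧ FLL a β t (parLL t v) = 0

/-- **LLS** (a zero of the chart `LL` gives a solution). USES `PR`. PROOF. LLE backwards, as MMS. -/
def LLS : Prop := ∀ (a β t : ℝ) (p : Fin 12 → ℝ), 0 < t → t < 1 → 0 < β → β < 1 →
  (∀ i, 0 < lenLL a β t p i) → FLL a β t p = 0 →
    Sol2 a β t (lenLL a β t p) ∧ parLL t (lenLL a β t p) = p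

/-- **LLB** (bounds in the chart `LL`). USES `BD`, `NB`.

PROOF. `NB` with `L = (0, 1, β₀, 1+β₀, β₀, 1+β₀)`: `A ∈ [-1,1]`, `p₈, …, p₁₁` bounded. `F₀ = w + y₀ - z₀`, `F₁ = w + y₁ - z₁`, both
`≥ 0`; `1 - W_i, 1 + C₂ⁱ, 1 - C₃ⁱ` are `F_i` times bounded nonnegative factors. It suffices: `F₀, F₁ ≤ C t²` and
`|A - B| ≤ C t`. The equations: `F₀ = (1-t) (g (1-C₃) + β (1+C₂)) + t (-b (A - B) + a (1-W₀) + b (1-W₁))` and
`F₁ = (1-t) (g (1-C₃') + β (1+C₂')) + t (-a (A' - B') + a (1-W₀) + b (1-W₁))`, where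
`(1-t) (g (1-C₃) + β (1+C₂)) = κ F₀`, `κ` near `(1+3β₀)/(1+β₀)`, so `κ ≥ 1 + c`, `κ ≤ C` (see MLB (1)). Hence
`t b (A - B) = (κ - 1) F₀ + t (a (1-W₀) + b (1-W₁)) ≥ c F₀ ≥ 0`, so `A - B ≥ 0` and
`c F₀ ≤ t (A - B)`; in the same way `A' - B' ≥ 0` and `c F₁ ≤ t (A' - B')`. `(A - B) + (A' - B') = (A + A') - (B + B')` is `≤ C t`
by `NB`, so `0 ≤ A - B ≤ C t`, `0 ≤ A' - B' ≤ C t`, and `F₀, F₁ ≤ C t²`. -/
def LLB : Prop := ∀ a₀ β₀ : ℝ, 0 < a₀ → a₀ < 1 → 0 < β₀ → β₀ < 1 → ∃ δ > 0, ∃ ε > 0, ∃ C : ℝ,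
  ∀ (a β t : ℝ) (v : Fin 6 → ℝ), Near2 a₀ β₀ ε a β t → Sol2 a β t v →
    (∀ i, |v i - (![0, 1, β₀, 1 + β₀, β₀, 1 + β₀] : Fin 6 → ℝ) i| < δ) →
      ∀ i, |parLL t v i| ≤ C

/-- **LLZ** (the zeros of the chart `LL` at `t = 0`).

PROOF. At `t = 0`: `w = 1`, `y = β`, `z = 1 + β` for both blocks, `ξ = 1`, `A = B = s := p₀`. `G = 1 - s²`, `d = b - a`.
Components 0, 1, 2: `p₄ = bμ/2`, `p₂ = bμ/(2β²)`, `p₃ = (1+β)² bμ/(2β²)` (1: `2 p₄ = bμ`; then 0, 2); 3, 4, 5: the same with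
`a μ'` for `p₇, p₅, p₆`. 8–11: `p₈ = G/(2β²)`, `p₉ = G/(2(1+β)²)`, `p₁₀ = G/β`, `p₁₁ = G/(1+β)`; `T = G K` (`K` as in `zLL`),
`μ + μ' = p₁₀ - p₁₁ = 2h`. With `X = a μ' - b μ`: 6: `g X/2 = G (K s - d/(2β))`; 7: `((1+β)²/(2β)) X = G (d/(2(1+β)) - K s)`. So
`μ = 2 a h - X`, `p = zLL a β s`, and eliminating `X`: `G · (s - sLL a β) = 0` (the coefficient of `s`,
`K (1/g + β/(1+β)²) > 0`). So `s ∈ {1, -1, sLL}`. `|sLL| < 1`: `(1+β)((1+β)³ + gβ²) < ((1+β)² + βg)²` (the difference is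
`βg (2 + 4β)`) and `|1 - 2a| < 1`. The converse is direct. -/
def LLZ : Prop := ∀ a β : ℝ, 0 < a → a < 1 → 0 < β → β < 1 → |sLL a β| < 1 ∧
  ∀ p, FLL a β 0 p = 0 ↔ p = zLL a β 1 ∨ p = zLL a β (-1) ∨ p = zLL a β (sLL a β)

/-- **LLN** (the zeros of the chart `LL` are nondegenerate). USES `LLZ` (only `|sLL| < 1`).

PROOF. As MMN: the twelve linear equations for `d` give `d` as the derivative of `zLL` along `ṡ = d₀` and
`(d/ds) (G (s - sLL)) ṡ = 0`, i.e. `(-2 s (s - sLL) + 1 - s²) ṡ = 0`; the factor is not zero at `s = ±1` (`|sLL| < 1`) and at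
`s = sLL`. So `ṡ = 0` and `d = 0`. -/
def LLN : Prop := ∀ a β : ℝ, 0 < a → a < 1 → 0 < β → β < 1 → |sLL a β| < 1 →
  ∀ s, (s = 1 ∨ s = -1 ∨ s = sLL a β) → ∀ d : Fin 12 → ℝ,
    HasDerivAt (fun r : ℝ ↦ FLL a β 0 (zLL a β s + r • d)) 0 0 → d = 0

/-- **LLC** (three solutions `LL` near). USES `LIM`, `LLE`, `LLS`, `LLB`, `LLZ`, `LLN`.

PROOF. As MLC. A solution with `1 ≤ v 3`, `1 ≤ v 5`, `v 0 < β` is by `LIM` (with `δ` smaller than `β₀`, `1 - β₀` and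
`(uL β₀ - β₀)/4`, `|β - β₀|` small; `uL β₀ > β₀`, see CR) near the point `LL` near. -/
def LLC : Prop := ∀ a₀ β₀ : ℝ, 0 < a₀ → a₀ < 1 → 0 < β₀ → β₀ < 1 → ∃ ε > 0,
  ∀ a β t, Near2 a₀ β₀ ε a β t →
    {v : Fin 6 → ℝ | Sol2 a β t v ∧ 1 ≤ v 3 ∧ 1 ≤ v 5 ∧ v 0 < β}.ncard = 3

/-- **TOT** (22 solutions). USES `LIM`, `CR`, `MLC`, `MMC`, `LLC`.

PROOF. By `LIM` (with `δ = min β₀ (1-β₀) / 2`) no solution has `1 ≤ v 2` and `1 ≤ v 3`, or `1 ≤ v 4` and `1 ≤ v 5`. So the solutions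
are the disjoint union of nine sets by the positions of the blocks: `L`: `1 ≤ z`; `R`: `1 ≤ y`; `M`: `y < 1`, `z < 1`.
`LL`: `3 + 1` (`LLC`, `CR`), `LR`: 1 (`CR`; `1 ≤ v 3`, `1 ≤ v 4`), `ML`: 2 (`MLC`; there `v 4 < 1` is automatic by the
exclusion), `MM`: 4. The swap of the small blocks `v ↦ ![v 0, v 1, v 4, v 5, v 2, v 3]` maps `Sol2 a β t` onto
`Sol2 (1 - a) β t` (`cs_comm`), the swap of the large blocks `v ↦ ![v 0, v 1, v 3, v 2, v 5, v 4]` maps it onto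
`Sol2 a (1 - β) t`; both are injective (`Set.ncard_image_of_injective`). So `RR` has 4 elements, `RL` 1, `LM`, `MR`, `RM` 2 each
(apply the goals at `(1 - a₀, β₀)`, `(a₀, 1 - β₀)`, `(1 - a₀, 1 - β₀)`). Sum: `4 + 4 + 1 + 1 + 2·4 + 4 = 22`
(`Set.ncard_union_eq`, as in `EINU/Total.lean`). -/
def TOT : Prop := ∀ a₀ β₀ : ℝ, 0 < a₀ → a₀ < 1 → 0 < β₀ → β₀ < 1 → (a₀ ≠ 1 / 2 ∨ β₀ ≠ 1 / 2) →
  ∃ ε > 0, ∀ a β t, Near2 a₀ β₀ ε a β t → {v : Fin 6 → ℝ | Sol2 a β t v}.ncard = 22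

/-- **FIN** (the count for the block sizes). USES `TOT`, `LINK`.

PROOF. *Uniform version* (as `Pool.Agent.Helper83.EINU.uniform`, file `EINU/Total.lean`): for `δ > 0` there is `ε > 0` such that for
`δ ≤ a ≤ 1-δ`, `δ ≤ β ≤ 1-δ`, `δ ≤ |a - 1/2| ∨ δ ≤ |β - 1/2|`, `0 < t < ε` there are 22 solutions: the set of these `(a, β)` is
compact, and `IsCompact.eventually_forall_of_forall_eventually`. *Sizes* (as `EINU/Main.lean`): `a = n₀/(n₀+n₁)`,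
`β = n₂/(n₂+n₃)`, `t = (n₀+n₁)/N`; `δ = 1/(2R+2)` works: `n₁ ≤ R n₀` gives `a ≥ 1/(1+R)`, and
`n₀ + n₁ ≤ R |n₀ - n₁|` gives `|a - 1/2| = |n₀-n₁|/(2(n₀+n₁)) ≥ 1/(2R)` (`R ≥ 1` because `n₀ + n₁ > 0`). `t < ε` if
`C > 1/ε`. `Pool.Agent.Helper83.EIN.ein_iff` and `LINK` translate. -/
def FIN : Prop := ∀ R : ℕ, ∃ C : ℕ, ∀ n : Fin 4 → ℕ, (∀ i, 0 < n i) →
  n 0 ≤ R * n 1 → n 1 ≤ R * n 0 → n 2 ≤ R * n 3 → n 3 ≤ R * n 2 →
  C * (n 0 + n 1) ≤ n 2 + n 3 →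
  ((n 0 : ℤ) + n 1 ≤ R * |(n 0 : ℤ) - n 1| ∨ (n 2 : ℤ) + n 3 ≤ R * |(n 2 : ℤ) - n 3|) →
    {x : Fin 4 → Fin 4 → ℝ | IsMetric x ∧ IsEinstein n (1 / 2) x}.ncard = 22

end Pool.Agent.Helper83.EIN2
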