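import Pool.Agent.Helper83.EIN2.Goals
import Pool.Agent.Helper3.EIN2.LLS

/-!
# Project EIN2 (MP_06d934_gt), packet MLS: a zero of the chart `ML` gives a solution
-/

set_option autoImplicit false

namespace Pool.Agent.Helper83.EIN2

open Pool.Agent.Helper83.EIN Pool.Agent.Helper3.EIN2

theorem mls : MLS := by
  intro a β t p ht ht1 hβ hβ1 hpos h
  have hu : lenML a β t p 0 =
      1 + (1 - t) * β * (1 - t * p 6) - (1 - t) * (1 - β) * (1 - t * p 11) := rfl
  have hw : lenML a β t p 1 = 1 + t * a * (1 - t * p 2) - t * (1 - a) * (1 - t * p 3) := rfl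
  have hy0 : lenML a β t p 2 =
      1 - t * (1 - a) * (1 - t * p 7) - (1 - t) * (1 - β) * (1 - t * p 1) := rfl
  have hz0 : lenML a β t p 3 = 1 - t * (1 - a) * (1 - t * p 9) - (1 - t) * β * (1 - t * p 0) := rfl
  have hy1 : lenML a β t p 4 = 1 - t * a * (1 - t * p 8) - (1 - t) * (1 - β) * (1 - t * p 5) := rfl
  have hz1 : lenML a β t p 5 = 1 + t * a * (1 - t * p 10) + (1 - t) * β * (1 - t * p 4) := rfl
  have q0 : (1 - t) * ((1 - β) * p 1 + β * p 0) +
      t * ((1 - a) * p 7 + (1 - a) * p 9 + a * p 2 - (1 - a) * p 3) -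
      (lenML a β t p 3 * p 2 - lenML a β t p 1 * p 0) = 0 := congrFun h 0
  have q1 : (1 - t) * ((1 - β) * p 1 + β * p 0) +
      t * ((1 - a) * p 7 + (1 - a) * p 9 + a * p 2 - (1 - a) * p 3) -
      (lenML a β t p 2 * p 2 - lenML a β t p 1 * p 1) = 0 := congrFun h 1
  have q2 : a * (p 0 + p 1) + (1 - t) * p 0 * p 1 + t * (1 - a) * (p 7 * p 0 + p 9 * p 1) -
      ((1 - a) * p 7 + (1 - a) * p 9 + a * p 2 - (1 - a) * p 3) = 0 := congrFun h 2
  have q3 : (1 - t) * ((1 - β) * p 5 + β * p 4) +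
      t * (a * p 8 + a * p 10 - a * p 2 + (1 - a) * p 3) -
      (lenML a β t p 4 * p 3 + lenML a β t p 1 * p 5) = 0 := congrFun h 3
  have q4 : (1 - t) * ((1 - β) * p 5 + β * p 4) +
      t * (a * p 8 + a * p 10 - a * p 2 + (1 - a) * p 3) -
      (lenML a β t p 4 * p 4 - lenML a β t p 5 * p 5) = 0 := congrFun h 4
  have q5 : (1 - t) * ((1 - β) * p 5 + β * p 4) +
      t * (a * p 8 + a * p 10 - a * p 2 + (1 - a) * p 3) -
      (lenML a β t p 1 * p 4 - lenML a β t p 5 * p 3) = 0 := congrFun h 5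
  have q6 : (1 - t) * ((1 - β) * p 1 + (1 - β) * p 5 + β * p 6 - (1 - β) * p 11) +
      t * ((1 - a) * p 7 + a * p 8) -
      (lenML a β t p 2 * p 8 + lenML a β t p 4 * p 7) = 0 := congrFun h 6
  have q7 : (1 - t) * ((1 - β) * p 1 + (1 - β) * p 5 + β * p 6 - (1 - β) * p 11) +
      t * ((1 - a) * p 7 + a * p 8) -
      (lenML a β t p 4 * p 6 - lenML a β t p 0 * p 8) = 0 := congrFun h 7
  have q8 : (1 - t) * ((1 - β) * p 1 + (1 - β) * p 5 + β * p 6 - (1 - β) * p 11) +
      t * ((1 - a) * p 7 + a * p 8) -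
      (lenML a β t p 2 * p 6 - lenML a β t p 0 * p 7) = 0 := congrFun h 8
  have q9 : (1 - t) * (-(β * p 6) + (1 - β) * p 11 + β * p 0 + β * p 4) +
      t * ((1 - a) * p 9 + a * p 10) -
      (lenML a β t p 0 * p 9 + lenML a β t p 3 * p 11) = 0 := congrFun h 9
  have q10 : (1 - t) * (-(β * p 6) + (1 - β) * p 11 + β * p 0 + β * p 4) +
      t * ((1 - a) * p 9 + a * p 10) -
      (lenML a β t p 3 * p 10 - lenML a β t p 5 * p 9) = 0 := congrFun h 10
  have q11 : (1 - t) * (-(β * p 6) + (1 - β) * p 11 + β * p 0 + β * p 4) +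
      t * ((1 - a) * p 9 + a * p 10) -
      (lenML a β t p 0 * p 10 - lenML a β t p 5 * p 11) = 0 := congrFun h 11
  have hpar : ∀ v, parML t v =
    ![(1 - cs (v 1) (v 2) (v 3)) / t, (1 - cs (v 1) (v 3) (v 2)) / t, (1 + cs (v 2) (v 3) (v 1)) / t,
    (1 - cs (v 4) (v 5) (v 1)) / t, (1 + cs (v 1) (v 4) (v 5)) / t, (1 - cs (v 1) (v 5) (v 4)) / t,
    (1 + cs (v 2) (v 4) (v 0)) / t, (1 - cs (v 0) (v 4) (v 2)) / t, (1 - cs (v 0) (v 2) (v 4)) / t,
    (1 - cs (v 0) (v 5) (v 3)) / t, (1 + cs (v 0) (v 3) (v 5)) / t, (1 - cs (v 3) (v 5) (v 0)) / t] :=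
    fun v ↦ rfl
  have pu := hpos 0
  have pw := hpos 1
  have py0 := hpos 2
  have pz0 := hpos 3
  have py1 := hpos 4
  have pz1 := hpos 5
  clear h
  generalize lenML a β t p = v at *
  -- the four excesses
  have se : v 2 + v 3 - v 1 = t * ((1 - t) * ((1 - β) * p 1 + β * p 0) +
      t * ((1 - a) * p 7 + (1 - a) * p 9 + a * p 2 - (1 - a) * p 3)) := by
    linear_combination hy0 + hz0 - hw
  have sf1 : v 1 + v 4 - v 5 = t * ((1 - t) * ((1 - β) * p 5 + β * p 4) +
      t * (a * p 8 + a * p 10 - a * p 2 + (1 - a) * p 3)) := by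
    linear_combination hw + hy1 - hz1
  have sf2 : v 2 + v 4 - v 0 = t * ((1 - t) * ((1 - β) * p 1 + (1 - β) * p 5 + β * p 6 -
      (1 - β) * p 11) + t * ((1 - a) * p 7 + a * p 8)) := by
    linear_combination hy0 + hy1 - hu
  have sf3 : v 0 + v 3 - v 5 = t * ((1 - t) * (-(β * p 6) + (1 - β) * p 11 + β * p 0 + β * p 4) +
      t * ((1 - a) * p 9 + a * p 10)) := by
    linear_combination hu + hz0 - hz1
  -- the triangle `023`
  obtain ⟨c1, c2, c3⟩ := cs3 (p := -1 + t * p 2) (q := 1 - t * p 1) (r := 1 - t * p 0) pw py0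
    pz0 (by linear_combination -se + t * p 0 * hy0 + t * p 1 * hz0 + t ^ 2 * q2)
    (by linear_combination se + t * q0) (by linear_combination se + t * q1)
  -- the triangle `123`
  obtain ⟨d1, d2, d3⟩ := cs3 (p := 1 - t * p 3) (q := 1 - t * p 5) (r := -1 + t * p 4) pw py1
    pz1 (by linear_combination sf1 + t * q4) (by linear_combination sf1 + t * q5)
    (by linear_combination -sf1 - t * q3)
  -- the triangle `012`
  obtain ⟨e1, e2, e3⟩ := cs3 (p := -1 + t * p 6) (q := 1 - t * p 7) (r := 1 - t * p 8) pu py0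
    py1 (by linear_combination -sf2 - t * q6) (by linear_combination sf2 + t * q7)
    (by linear_combination sf2 + t * q8)
  -- the triangle `013`
  obtain ⟨f1, f2, f3⟩ := cs3 (p := 1 - t * p 11) (q := 1 - t * p 9) (r := -1 + t * p 10) pu pz0
    pz1 (by linear_combination sf3 + t * q10) (by linear_combination sf3 + t * q11)
    (by linear_combination -sf3 - t * q9)
  have ht0 : t ≠ 0 := ht.ne'
  constructor
  · refine ⟨hpos, ?_, ?_, ?_, ?_, ?_, ?_⟩
    · rw [e3, f3]
      linear_combination hu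
    · rw [c3, d3]
      linear_combination hw
    · rw [e2, c2]
      linear_combination hy0
    · rw [f2, c1]
      linear_combination hz0
    · rw [e1, d2]
      linear_combination hy1
    · rw [f1, d1]
      linear_combination hz1
  · rw [hpar, c1, c2, c3, d1, d2, d3, e1, e2, e3, f1, f2, f3]
    funext i
    fin_cases i <;> simp <;> field_simp

end Pool.Agent.Helper83.EIN2
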