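import Pool.Agent.Helper83.EIN2.TOT
import Pool.Agent.Helper83.EIN2.FIN
import Pool.Agent.Helper83.EIN2.MLS
import Pool.Agent.Helper3.EIN2.LLS
import Pool.Agent.Helper9.EIN2.BD
import Pool.Agent.Helper11.EIN2.LINK
import Pool.Agent.Helper13.EIN2.MLB
import Pool.Agent.Helper19.EIN2.MME
import Pool.Agent.Helper20.EIN2.REG
import Pool.Agent.Helper22.EIN2.MLZ
import Pool.Agent.Helper26.EIN2.LLZ
import Pool.Agent.Helper30.EIN2.MLC
import Pool.Agent.Helper31.EIN2.MLE
import Pool.Agent.Helper35.EIN2.CR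
import Pool.Agent.Helper35.EIN2.MMF
import Pool.Agent.Helper36.EIN2.NB
import Pool.Agent.Helper49.EIN2.MMC
import Pool.Agent.Helper53.EIN2.MMS
import Pool.Agent.Helper54.EIN2.MMZ
import Pool.Agent.Helper59.EIN2.MMN
import Pool.Agent.Helper61.EIN2.LLE
import Pool.Agent.Helper85.EIN2.PR
import Pool.Agent.Helper87.EIN2.NR
import Pool.Agent.Helper88.EIN2.LLB
import Pool.Agent.Helper91.EIN2.LIM
import Pool.Agent.Helper93.EIN2.MMB
import Pool.Agent.Helper98.EIN2.LLC
import Pool.Agent.Helper99.EIN2.LLN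

/-!
# Project EIN2 (MP_06d934_gt): assembly
-/

set_option autoImplicit false

namespace Pool.Agent.Helper83.EIN2

/-- Exactly 22 metrics for two small and two large blocks. -/
theorem main : FIN := by
  have hBD := Pool.Agent.Helper9.EIN2.bd
  have hLINK := Pool.Agent.Helper11.EIN2.link
  have hLIM := Pool.Agent.Helper91.EIN2.lim hBD
  have hPR := Pool.Agent.Helper85.EIN2.pr
  have hNB := Pool.Agent.Helper36.EIN2.nb hBD
  have hMMF := Pool.Agent.Helper35.EIN2.mmf hBD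
  have hREG := Pool.Agent.Helper20.EIN2.reg
  have hNR := Pool.Agent.Helper87.EIN2.nr
  have hCR := Pool.Agent.Helper35.EIN2.cr hLIM hREG hNR
  have hMLE := Pool.Agent.Helper31.EIN2.mle
  have hMLB := Pool.Agent.Helper13.EIN2.mlb hBD
  have hMLZ := Pool.Agent.Helper22.EIN2.mlz
  have hMLC := Pool.Agent.Helper30.EIN2.mlc hLIM hMLE mls hMLB hMLZ
  have hMME := Pool.Agent.Helper19.EIN2.mme
  have hMMS := Pool.Agent.Helper53.EIN2.mms hPR
  have hMMB := Pool.Agent.Helper93.EIN2.mmb hBD hNB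
  have hMMZ := Pool.Agent.Helper54.EIN2.mmz
  have hMMN := Pool.Agent.Helper59.EIN2.mmn
  have hMMC := Pool.Agent.Helper49.EIN2.mmc hLIM hMMF hMME hMMS hMMB hMMZ hMMN
  have hLLE := Pool.Agent.Helper61.EIN2.lle
  have hLLS := Pool.Agent.Helper3.EIN2.lls hPR
  have hLLB := Pool.Agent.Helper88.EIN2.llb hBD hNB
  have hLLZ := Pool.Agent.Helper26.EIN2.llz
  have hLLN := Pool.Agent.Helper99.EIN2.lln
  have hLLC := Pool.Agent.Helper98.EIN2.llc hLIM hLLE hLLS hLLB hLLZ hLLN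
  exact fin (tot hLIM hCR hMLC hMMC hLLC) hLINK

end Pool.Agent.Helper83.EIN2
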