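import Pool.Agent.Helper83.EIN2.Goals

/-!
# Project EIN2 (MP_06d934_gt): the sum over the positions
-/

set_option autoImplicit false

namespace Pool.Agent.Helper83.EIN2

open Finset Topology Filter Pool.Agent.Helper83.EIN

/-- The swap of the small blocks. -/
def sw01 (v : Fin 6 → ℝ) : Fin 6 → ℝ := ![v 0, v 1, v 4, v 5, v 2, v 3]

/-- The swap of the large blocks. -/
def sw23 (v : Fin 6 → ℝ) : Fin 6 → ℝ := ![v 0, v 1, v 3, v 2, v 5, v 4]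

theorem sw01_sw01 (v : Fin 6 → ℝ) : sw01 (sw01 v) = v := by
  funext i
  fin_cases i <;> rfl

theorem sw23_sw23 (v : Fin 6 → ℝ) : sw23 (sw23 v) = v := by
  funext i
  fin_cases i <;> rfl

theorem Sol2.sw01 {a β t : ℝ} {v : Fin 6 → ℝ} (h : Sol2 a β t v) : Sol2 (1 - a) β t (sw01 v) := by
  refine ⟨fun i ↦ ?_, ?_, ?_, ?_, ?_, ?_, ?_⟩
  · have := h.pos
    fin_cases i
    exacts [this 0, this 1, this 4, this 5, this 2, this 3]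
  · have := h.e0
    simp only [EIN2.sw01, Matrix.cons_val]
    rw [cs_comm (v 4), cs_comm (v 5)]
    exact this
  · have := h.e1
    simp only [EIN2.sw01, Matrix.cons_val]
    linarith
  · have := h.e4
    simp only [EIN2.sw01, Matrix.cons_val]
    linarith
  · have := h.e5
    simp only [EIN2.sw01, Matrix.cons_val]
    linarith
  · have := h.e2
    simp only [EIN2.sw01, Matrix.cons_val]
    linarith
  · have := h.e3
    simp only [EIN2.sw01, Matrix.cons_val]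
    linarith

theorem Sol2.sw23 {a β t : ℝ} {v : Fin 6 → ℝ} (h : Sol2 a β t v) : Sol2 a (1 - β) t (sw23 v) := by
  refine ⟨fun i ↦ ?_, ?_, ?_, ?_, ?_, ?_, ?_⟩
  · have := h.pos
    fin_cases i
    exacts [this 0, this 1, this 3, this 2, this 5, this 4]
  · have := h.e0
    simp only [EIN2.sw23, Matrix.cons_val]
    linear_combination this
  · have := h.e1
    simp only [EIN2.sw23, Matrix.cons_val]
    rw [cs_comm (v 3), cs_comm (v 5)]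
    exact this
  · have := h.e3
    simp only [EIN2.sw23, Matrix.cons_val]
    linear_combination this
  · have := h.e2
    simp only [EIN2.sw23, Matrix.cons_val]
    linear_combination this
  · have := h.e5
    simp only [EIN2.sw23, Matrix.cons_val]
    linear_combination this
  · have := h.e4
    simp only [EIN2.sw23, Matrix.cons_val]
    linear_combination this

theorem sol2_sw01 {a β t : ℝ} {v : Fin 6 → ℝ} : Sol2 (1 - a) β t (sw01 v) ↔ Sol2 a β t v := by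
  constructor
  · intro h
    have := h.sw01
    rw [sw01_sw01, sub_sub_cancel] at this
    exact this
  · exact Sol2.sw01

theorem sol2_sw23 {a β t : ℝ} {v : Fin 6 → ℝ} : Sol2 a (1 - β) t (sw23 v) ↔ Sol2 a β t v := by
  constructor
  · intro h
    have := h.sw23
    rw [sw23_sw23, sub_sub_cancel] at this
    exact this
  · exact Sol2.sw23

theorem ncard_sw01 (a β t : ℝ) (P : (Fin 6 → ℝ) → Prop) :
    {v : Fin 6 → ℝ | Sol2 a β t v ∧ P (sw01 v)}.ncard =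
      {v : Fin 6 → ℝ | Sol2 (1 - a) β t v ∧ P v}.ncard := by
  have h : {v : Fin 6 → ℝ | Sol2 (1 - a) β t v ∧ P v} =
      sw01 '' {v : Fin 6 → ℝ | Sol2 a β t v ∧ P (sw01 v)} := by
    ext v
    constructor
    · rintro ⟨h1, h2⟩
      refine ⟨sw01 v, ⟨?_, ?_⟩, sw01_sw01 v⟩
      · have := h1.sw01
        rwa [sub_sub_cancel] at this
      · rwa [sw01_sw01]
    · rintro ⟨w, ⟨h1, h2⟩, rfl⟩
      exact ⟨h1.sw01, h2⟩
  rw [h, Set.ncard_image_of_injective]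
  exact Function.LeftInverse.injective sw01_sw01

theorem ncard_sw23 (a β t : ℝ) (P : (Fin 6 → ℝ) → Prop) :
    {v : Fin 6 → ℝ | Sol2 a β t v ∧ P (sw23 v)}.ncard =
      {v : Fin 6 → ℝ | Sol2 a (1 - β) t v ∧ P v}.ncard := by
  have h : {v : Fin 6 → ℝ | Sol2 a (1 - β) t v ∧ P v} =
      sw23 '' {v : Fin 6 → ℝ | Sol2 a β t v ∧ P (sw23 v)} := by
    ext v
    constructor
    · rintro ⟨h1, h2⟩
      refine ⟨sw23 v, ⟨?_, ?_⟩, sw23_sw23 v⟩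
      · have := h1.sw23
        rwa [sub_sub_cancel] at this
      · rwa [sw23_sw23]
    · rintro ⟨w, ⟨h1, h2⟩, rfl⟩
      exact ⟨h1.sw23, h2⟩
  rw [h, Set.ncard_image_of_injective]
  exact Function.LeftInverse.injective sw23_sw23

theorem Near2.sw01 {a₀ β₀ ε a β t : ℝ} (h : Near2 a₀ β₀ ε a β t) :
    Near2 (1 - a₀) β₀ ε (1 - a) β t := by
  refine ⟨?_, h.hb, h.t0, h.t1⟩
  have := h.ha
  rwa [show (1 - a) - (1 - a₀) = -(a - a₀) by ring, abs_neg]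

theorem Near2.sw23 {a₀ β₀ ε a β t : ℝ} (h : Near2 a₀ β₀ ε a β t) :
    Near2 a₀ (1 - β₀) ε a (1 - β) t := by
  refine ⟨h.ha, ?_, h.t0, h.t1⟩
  have := h.hb
  rwa [show (1 - β) - (1 - β₀) = -(β - β₀) by ring, abs_neg]

theorem fin2 {s : Set (Fin 6 → ℝ)} {k : ℕ} (h : s.ncard = k) (hk : 0 < k) : s.Finite :=
  Set.finite_of_ncard_pos (by omega)

theorem split {s : Set (Fin 6 → ℝ)} (hs : s.Finite) (P : (Fin 6 → ℝ) → Prop) :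
    s.ncard = {v | v ∈ s ∧ P v}.ncard + {v | v ∈ s ∧ ¬ P v}.ncard := by
  have hd : Disjoint {v | v ∈ s ∧ P v} {v | v ∈ s ∧ ¬ P v} := by
    rw [Set.disjoint_left]
    rintro v ⟨-, h1⟩ ⟨-, h2⟩
    exact h2 h1
  rw [← Set.ncard_union_eq hd (hs.subset fun v hv ↦ hv.1) (hs.subset fun v hv ↦ hv.1)]
  congr 1
  ext v
  simp only [Set.mem_union, Set.mem_ofPred_eq]
  tauto

/-- Four solutions with both blocks at `L`. -/
theorem ll4 (hC : CR) (hL : LLC) {a₀ β₀ : ℝ} (ha0 : 0 < a₀) (ha1 : a₀ < 1) (hb0 : 0 < β₀)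
    (hb1 : β₀ < 1) : ∃ ε > 0, ∀ a β t, Near2 a₀ β₀ ε a β t →
      {v : Fin 6 → ℝ | Sol2 a β t v ∧ 1 ≤ v 3 ∧ 1 ≤ v 5}.ncard = 4 := by
  obtain ⟨ε1, hε1, H1⟩ := hC a₀ β₀ ha0 ha1 hb0 hb1
  obtain ⟨ε2, hε2, H2⟩ := hL a₀ β₀ ha0 ha1 hb0 hb1
  refine ⟨min ε1 ε2, lt_min hε1 hε2, fun a β t hN ↦ ?_⟩
  have c1 := (H1 a β t (hN.mono (min_le_left _ _))).2
  have c2 := H2 a β t (hN.mono (min_le_right _ _))
  have e : {v : Fin 6 → ℝ | Sol2 a β t v ∧ 1 ≤ v 3 ∧ 1 ≤ v 5} =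
      {v : Fin 6 → ℝ | Sol2 a β t v ∧ 1 ≤ v 3 ∧ 1 ≤ v 5 ∧ v 0 < β} ∪
        {v : Fin 6 → ℝ | Sol2 a β t v ∧ 1 ≤ v 3 ∧ 1 ≤ v 5 ∧ β ≤ v 0} := by
    ext v
    constructor
    · rintro ⟨h1, h2, h3⟩
      rcases lt_or_ge (v 0) β with h | h
      · exact Or.inl ⟨h1, h2, h3, h⟩
      · exact Or.inr ⟨h1, h2, h3, h⟩
    · rintro (⟨h1, h2, h3, -⟩ | ⟨h1, h2, h3, -⟩) <;> exact ⟨h1, h2, h3⟩
  rw [e, Set.ncard_union_eq _ (fin2 c2 (by norm_num)) (fin2 c1 (by norm_num)), c1, c2]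
  rw [Set.disjoint_left]
  rintro v ⟨-, -, -, h1⟩ ⟨-, -, -, h2⟩
  linarith

theorem tot (hLim : LIM) (hC : CR) (hML : MLC) (hMM : MMC) (hLL : LLC) : TOT := by
  intro a₀ β₀ ha0 ha1 hb0 hb1 hne
  have ha0' : 0 < 1 - a₀ := by linarith
  have ha1' : 1 - a₀ < 1 := by linarith
  have hb0' : 0 < 1 - β₀ := by linarith
  have hb1' : 1 - β₀ < 1 := by linarith
  have hm : 0 < min β₀ (1 - β₀) / 2 := by positivity
  obtain ⟨ε0, hε0, H0⟩ := hLim a₀ β₀ ha0 ha1 hb0 hb1 _ hm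
  obtain ⟨ε1, hε1, H1⟩ := ll4 hC hLL ha0 ha1 hb0 hb1
  obtain ⟨ε2, hε2, H2⟩ := ll4 hC hLL ha0 ha1 hb0' hb1'
  obtain ⟨ε3, hε3, H3⟩ := hC a₀ β₀ ha0 ha1 hb0 hb1
  obtain ⟨ε4, hε4, H4⟩ := hC (1 - a₀) β₀ ha0' ha1' hb0 hb1
  obtain ⟨ε5, hε5, H5⟩ := hML a₀ β₀ ha0 ha1 hb0 hb1
  obtain ⟨ε6, hε6, H6⟩ := hML (1 - a₀) β₀ ha0' ha1' hb0 hb1
  obtain ⟨ε7, hε7, H7⟩ := hML a₀ (1 - β₀) ha0 ha1 hb0' hb1'
  obtain ⟨ε8, hε8, H8⟩ := hML (1 - a₀) (1 - β₀) ha0' ha1' hb0' hb1'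
  obtain ⟨ε9, hε9, H9⟩ := hMM a₀ β₀ ha0 ha1 hb0 hb1 hne
  refine ⟨min ε0 (min (min (min ε1 ε2) (min ε3 ε4)) (min (min ε5 ε6) (min (min ε7 ε8) ε9))),
    by positivity, fun a β t hN ↦ ?_⟩
  have hN' := hN.mono (min_le_right _ _)
  have n0 := hN.mono (min_le_left _ _)
  have n1 := hN'.mono ((min_le_left _ _).trans ((min_le_left _ _).trans (min_le_left _ _)) : _ ≤ ε1)
  have n2 := hN'.mono ((min_le_left _ _).trans ((min_le_left _ _).trans (min_le_right _ _)) : _ ≤ ε2)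
  have n3 := hN'.mono ((min_le_left _ _).trans ((min_le_right _ _).trans (min_le_left _ _)) : _ ≤ ε3)
  have n4 := hN'.mono ((min_le_left _ _).trans ((min_le_right _ _).trans (min_le_right _ _)) : _ ≤ ε4)
  have n5 := hN'.mono ((min_le_right _ _).trans ((min_le_left _ _).trans (min_le_left _ _)) : _ ≤ ε5)
  have n6 := hN'.mono ((min_le_right _ _).trans ((min_le_left _ _).trans (min_le_right _ _)) : _ ≤ ε6)
  have n7 := hN'.mono ((min_le_right _ _).trans ((min_le_right _ _).trans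
    ((min_le_left _ _).trans (min_le_left _ _))) : _ ≤ ε7)
  have n8 := hN'.mono ((min_le_right _ _).trans ((min_le_right _ _).trans
    ((min_le_left _ _).trans (min_le_right _ _))) : _ ≤ ε8)
  have n9 := hN'.mono ((min_le_right _ _).trans ((min_le_right _ _).trans (min_le_right _ _)) : _ ≤ ε9)
  -- the counts
  have cLL := H1 a β t n1
  have cRR : {v : Fin 6 → ℝ | Sol2 a β t v ∧ 1 ≤ v 2 ∧ 1 ≤ v 4}.ncard = 4 := by
    rw [← H2 a (1 - β) t n2.sw23]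
    exact ncard_sw23 a β t fun v ↦ 1 ≤ v 3 ∧ 1 ≤ v 5
  have cLR := (H3 a β t n3).1
  have cRL : {v : Fin 6 → ℝ | Sol2 a β t v ∧ 1 ≤ v 5 ∧ 1 ≤ v 2}.ncard = 1 := by
    rw [← (H4 (1 - a) β t n4.sw01).1]
    exact ncard_sw01 a β t fun v ↦ 1 ≤ v 3 ∧ 1 ≤ v 4
  have cML := H5 a β t n5
  have cLM : {v : Fin 6 → ℝ | Sol2 a β t v ∧ v 4 < 1 ∧ v 5 < 1 ∧ 1 ≤ v 3}.ncard = 2 := by
    rw [← H6 (1 - a) β t n6.sw01]
    exact ncard_sw01 a β t fun v ↦ v 2 < 1 ∧ v 3 < 1 ∧ 1 ≤ v 5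
  have cMR : {v : Fin 6 → ℝ | Sol2 a β t v ∧ v 3 < 1 ∧ v 2 < 1 ∧ 1 ≤ v 4}.ncard = 2 := by
    rw [← H7 a (1 - β) t n7.sw23]
    exact ncard_sw23 a β t fun v ↦ v 2 < 1 ∧ v 3 < 1 ∧ 1 ≤ v 5
  have cRM : {v : Fin 6 → ℝ | Sol2 a β t v ∧ v 5 < 1 ∧ v 4 < 1 ∧ 1 ≤ v 2}.ncard = 2 := by
    have h1 := ncard_sw01 a β t fun v ↦ v 3 < 1 ∧ v 2 < 1 ∧ 1 ≤ v 4
    have h2 := ncard_sw23 (1 - a) β t fun v ↦ v 2 < 1 ∧ v 3 < 1 ∧ 1 ≤ v 5
    rw [← H8 (1 - a) (1 - β) t n8.sw01.sw23, ← h2]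
    exact h1
  have cMM := H9 a β t n9
  -- the exclusion
  have excl : ∀ v, Sol2 a β t v → (1 ≤ v 3 → v 2 < 1) ∧ (1 ≤ v 5 → v 4 < 1) := by
    intro v hv
    obtain ⟨L, hL, hd⟩ := H0 a β t v n0 hv
    have m1 : min β₀ (1 - β₀) / 2 < β₀ := by
      have := min_le_left β₀ (1 - β₀)
      linarith
    have m2 : min β₀ (1 - β₀) / 2 < 1 - β₀ := by
      have := min_le_right β₀ (1 - β₀)
      linarith
    have d2 := abs_lt.1 (hd 2)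
    have d3 := abs_lt.1 (hd 3)
    have d4 := abs_lt.1 (hd 4)
    have d5 := abs_lt.1 (hd 5)
    simp only [Lim, List.mem_cons, List.not_mem_nil, or_false] at hL
    rcases hL with rfl | rfl | rfl | rfl | rfl | rfl | rfl | rfl | rfl | rfl | rfl | rfl <;>
      simp only [Matrix.cons_val] at d2 d3 d4 d5 <;>
      refine ⟨fun h ↦ ?_, fun h ↦ ?_⟩ <;> linarith
  -- finiteness
  have hfin : {v : Fin 6 → ℝ | Sol2 a β t v}.Finite := by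
    refine (((fin2 cLL (by norm_num)).union (fin2 cRR (by norm_num))).union
      (((fin2 cLR (by norm_num)).union (fin2 cRL (by norm_num))).union
        (((fin2 cML (by norm_num)).union (fin2 cLM (by norm_num))).union
          (((fin2 cMR (by norm_num)).union (fin2 cRM (by norm_num))).union
            (fin2 cMM (by norm_num)))))).subset ?_
    intro v hv
    have hv' : Sol2 a β t v := hv
    simp only [Set.mem_union, Set.mem_ofPred_eq]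
    rcases lt_or_ge (v 2) 1 with h2 | h2 <;> rcases lt_or_ge (v 3) 1 with h3 | h3 <;>
      rcases lt_or_ge (v 4) 1 with h4 | h4 <;> rcases lt_or_ge (v 5) 1 with h5 | h5 <;> tauto
  rw [split hfin fun v ↦ 1 ≤ v 3]
  have f1 : {v | v ∈ {v : Fin 6 → ℝ | Sol2 a β t v} ∧ 1 ≤ v 3}.Finite :=
    hfin.subset fun v hv ↦ hv.1
  have f2 : {v | v ∈ {v : Fin 6 → ℝ | Sol2 a β t v} ∧ ¬ 1 ≤ v 3}.Finite :=
    hfin.subset fun v hv ↦ hv.1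
  rw [split f1 fun v ↦ 1 ≤ v 5, split f2 fun v ↦ 1 ≤ v 2]
  have f11 := f1.subset (t := {v | v ∈ {v | v ∈ {v : Fin 6 → ℝ | Sol2 a β t v} ∧ 1 ≤ v 3} ∧
    ¬ 1 ≤ v 5}) fun v hv ↦ hv.1
  have f21 := f2.subset (t := {v | v ∈ {v | v ∈ {v : Fin 6 → ℝ | Sol2 a β t v} ∧ ¬ 1 ≤ v 3} ∧
    1 ≤ v 2}) fun v hv ↦ hv.1
  have f22 := f2.subset (t := {v | v ∈ {v | v ∈ {v : Fin 6 → ℝ | Sol2 a β t v} ∧ ¬ 1 ≤ v 3} ∧
    ¬ 1 ≤ v 2}) fun v hv ↦ hv.1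
  rw [split f11 fun v ↦ 1 ≤ v 4, split f21 fun v ↦ 1 ≤ v 5, split f22 fun v ↦ 1 ≤ v 5]
  have f212 := f21.subset (t := {v | v ∈ {v | v ∈ {v | v ∈ {v : Fin 6 → ℝ | Sol2 a β t v} ∧
    ¬ 1 ≤ v 3} ∧ 1 ≤ v 2} ∧ ¬ 1 ≤ v 5}) fun v hv ↦ hv.1
  have f222 := f22.subset (t := {v | v ∈ {v | v ∈ {v | v ∈ {v : Fin 6 → ℝ | Sol2 a β t v} ∧
    ¬ 1 ≤ v 3} ∧ ¬ 1 ≤ v 2} ∧ ¬ 1 ≤ v 5}) fun v hv ↦ hv.1
  rw [split f212 fun v ↦ 1 ≤ v 4, split f222 fun v ↦ 1 ≤ v 4]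
  have key : ∀ (P Q : (Fin 6 → ℝ) → Prop) (k : ℕ),
      {v : Fin 6 → ℝ | Sol2 a β t v ∧ P v}.ncard = k →
      (∀ v, Sol2 a β t v → (Q v ↔ P v)) → {v : Fin 6 → ℝ | Sol2 a β t v ∧ Q v}.ncard = k := by
    intro P Q k h1 h2
    rw [← h1]
    congr 1
    ext v
    constructor
    · rintro ⟨p, q⟩
      exact ⟨p, (h2 v p).1 q⟩
    · rintro ⟨p, q⟩
      exact ⟨p, (h2 v p).2 q⟩
  have g1 : {v | v ∈ {v | v ∈ {v : Fin 6 → ℝ | Sol2 a β t v} ∧ 1 ≤ v 3} ∧ 1 ≤ v 5}.ncard = 4 := by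
    simp only [Set.mem_ofPred_eq, and_assoc]
    exact cLL
  have g2 : {v | v ∈ {v | v ∈ {v | v ∈ {v : Fin 6 → ℝ | Sol2 a β t v} ∧ 1 ≤ v 3} ∧ ¬ 1 ≤ v 5} ∧
      1 ≤ v 4}.ncard = 1 := by
    simp only [Set.mem_ofPred_eq, and_assoc]
    refine key _ _ _ cLR fun v hv ↦ ?_
    have := excl v hv
    constructor
    · rintro ⟨p, -, q⟩
      exact ⟨p, q⟩
    · rintro ⟨p, q⟩
      refine ⟨p, fun h ↦ ?_, q⟩
      linarith [this.2 h]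
  have g3 : {v | v ∈ {v | v ∈ {v | v ∈ {v : Fin 6 → ℝ | Sol2 a β t v} ∧ 1 ≤ v 3} ∧ ¬ 1 ≤ v 5} ∧
      ¬ 1 ≤ v 4}.ncard = 2 := by
    simp only [Set.mem_ofPred_eq, and_assoc, not_le]
    refine key _ _ _ cLM fun v hv ↦ ?_
    tauto
  have g4 : {v | v ∈ {v | v ∈ {v | v ∈ {v : Fin 6 → ℝ | Sol2 a β t v} ∧ ¬ 1 ≤ v 3} ∧ 1 ≤ v 2} ∧
      1 ≤ v 5}.ncard = 1 := by
    simp only [Set.mem_ofPred_eq, and_assoc]
    refine key _ _ _ cRL fun v hv ↦ ?_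
    have := excl v hv
    constructor
    · rintro ⟨-, p, q⟩
      exact ⟨q, p⟩
    · rintro ⟨q, p⟩
      refine ⟨fun h ↦ ?_, p, q⟩
      linarith [this.1 h]
  have g5 : {v | v ∈ {v | v ∈ {v | v ∈ {v | v ∈ {v : Fin 6 → ℝ | Sol2 a β t v} ∧ ¬ 1 ≤ v 3} ∧
      1 ≤ v 2} ∧ ¬ 1 ≤ v 5} ∧ 1 ≤ v 4}.ncard = 4 := by
    simp only [Set.mem_ofPred_eq, and_assoc]
    refine key _ _ _ cRR fun v hv ↦ ?_
    have := excl v hv
    constructor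
    · rintro ⟨-, p, -, q⟩
      exact ⟨p, q⟩
    · rintro ⟨p, q⟩
      refine ⟨fun h ↦ ?_, p, fun h ↦ ?_, q⟩
      · linarith [this.1 h]
      · linarith [this.2 h]
  have g6 : {v | v ∈ {v | v ∈ {v | v ∈ {v | v ∈ {v : Fin 6 → ℝ | Sol2 a β t v} ∧ ¬ 1 ≤ v 3} ∧
      1 ≤ v 2} ∧ ¬ 1 ≤ v 5} ∧ ¬ 1 ≤ v 4}.ncard = 2 := by
    simp only [Set.mem_ofPred_eq, and_assoc]
    refine key _ _ _ cRM fun v hv ↦ ?_
    have := excl v hv
    constructor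
    · rintro ⟨-, p, q, r⟩
      exact ⟨not_le.1 q, not_le.1 r, p⟩
    · rintro ⟨q, r, p⟩
      refine ⟨fun h ↦ ?_, p, not_le.2 q, not_le.2 r⟩
      linarith [this.1 h]
  have g7 : {v | v ∈ {v | v ∈ {v | v ∈ {v : Fin 6 → ℝ | Sol2 a β t v} ∧ ¬ 1 ≤ v 3} ∧ ¬ 1 ≤ v 2} ∧
      1 ≤ v 5}.ncard = 2 := by
    simp only [Set.mem_ofPred_eq, and_assoc, not_le]
    refine key _ _ _ cML fun v hv ↦ ?_
    tauto
  have g8 : {v | v ∈ {v | v ∈ {v | v ∈ {v | v ∈ {v : Fin 6 → ℝ | Sol2 a β t v} ∧ ¬ 1 ≤ v 3} ∧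
      ¬ 1 ≤ v 2} ∧ ¬ 1 ≤ v 5} ∧ 1 ≤ v 4}.ncard = 2 := by
    simp only [Set.mem_ofPred_eq, and_assoc, not_le]
    refine key _ _ _ cMR fun v hv ↦ ?_
    have := excl v hv
    constructor
    · rintro ⟨p, q, -, r⟩
      exact ⟨p, q, r⟩
    · rintro ⟨p, q, r⟩
      refine ⟨p, q, ?_, r⟩
      by_contra h
      linarith [this.2 (not_lt.1 h)]
  have g9 : {v | v ∈ {v | v ∈ {v | v ∈ {v | v ∈ {v : Fin 6 → ℝ | Sol2 a β t v} ∧ ¬ 1 ≤ v 3} ∧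
      ¬ 1 ≤ v 2} ∧ ¬ 1 ≤ v 5} ∧ ¬ 1 ≤ v 4}.ncard = 4 := by
    simp only [Set.mem_ofPred_eq, and_assoc, not_le]
    refine key _ _ _ cMM fun v hv ↦ ?_
    tauto
  rw [g1, g2, g3, g4, g5, g6, g7, g8, g9]

end Pool.Agent.Helper83.EIN2
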